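import Pool.Agent.U349.ST.Fwd

/-!
# Angles indexed by primes
-/

set_option autoImplicit false

namespace Pool.Agent.U349.ST

open Finset Filter Topology

/-- the primes `p ≤ N` with `p ∤ a` -/
def PS (a : ℤ) (N : ℕ) : Finset ℕ := (range (N + 1)).filter (fun p => p.Prime ∧ Nat.Coprime p a.natAbs)

lemma mem_PS (a : ℤ) (N p : ℕ) : p ∈ PS a N ↔ p ≤ N ∧ p.Prime ∧ Nat.Coprime p a.natAbs := by
  unfold PS
  rw [mem_filter, mem_range, Nat.lt_succ_iff]

lemma primeCounting_eq (N : ℕ) : Nat.primeCounting N = #{p ∈ range (N + 1) | p.Prime} := by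
  unfold Nat.primeCounting Nat.primeCounting'
  rw [Nat.count_eq_card_filter_range]

lemma card_PS_le (a : ℤ) (N : ℕ) : #(PS a N) ≤ Nat.primeCounting N := by
  rw [primeCounting_eq]
  apply card_le_card
  intro p hp
  rw [mem_PS] at hp
  rw [mem_filter, mem_range, Nat.lt_succ_iff]
  exact ⟨hp.1, hp.2.1⟩

lemma le_card_PS (a : ℤ) (ha : a ≠ 0) (N : ℕ) : Nat.primeCounting N ≤ #(PS a N) + a.natAbs := by
  rw [primeCounting_eq]
  have h1 : {p ∈ range (N + 1) | p.Prime} ⊆ PS a N ∪ Icc 1 a.natAbs := by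
    intro p hp
    rw [mem_filter, mem_range, Nat.lt_succ_iff] at hp
    rw [mem_union, mem_PS, mem_Icc]
    by_cases h : Nat.Coprime p a.natAbs
    · left; exact ⟨hp.1, hp.2, h⟩
    · right
      have h2 : p ∣ a.natAbs := by
        by_contra h3
        exact h ((Nat.Prime.coprime_iff_not_dvd hp.2).2 h3)
      exact ⟨hp.2.one_lt.le, Nat.le_of_dvd (by omega) h2⟩
  refine (card_le_card h1).trans ((card_union_le _ _).trans ?_)
  rw [Nat.card_Icc]
  omega

lemma PS_one (a : ℤ) (ha : a ≠ 0) :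
    Tendsto (fun N => (#(PS a N) : ℝ) / (Nat.primeCounting N : ℝ)) atTop (𝓝 1) := by
  have h1 : Tendsto (fun N => (Nat.primeCounting N : ℝ)) atTop atTop :=
    tendsto_natCast_atTop_atTop.comp Nat.tendsto_primeCounting
  have h2 : Tendsto (fun N => 1 - (a.natAbs : ℝ) / (Nat.primeCounting N : ℝ)) atTop (𝓝 1) := by
    have := (tendsto_const_nhds (x := (a.natAbs : ℝ))).div_atTop h1
    simpa using (tendsto_const_nhds (x := (1 : ℝ))).sub this
  refine tendsto_of_tendsto_of_tendsto_of_le_of_le' h2 tendsto_const_nhds ?_ ?_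
  · filter_upwards [h1.eventually_gt_atTop 0] with N hN
    rw [le_div_iff₀ hN, sub_mul, one_mul, div_mul_cancel₀ _ hN.ne']
    have : (Nat.primeCounting N : ℝ) ≤ #(PS a N) + a.natAbs := by exact_mod_cast le_card_PS a ha N
    linarith
  · filter_upwards [h1.eventually_gt_atTop 0] with N hN
    rw [div_le_one hN]
    exact_mod_cast card_PS_le a N

/-- the data of angles `arccos (x p)` indexed by the primes `p ∤ a` -/
lemma data_prime (a : ℤ) (ha : a ≠ 0) (x : ℕ → ℝ) :
    Data (PS a) (fun N => (Nat.primeCounting N : ℝ)) (fun p => Real.arccos (x p)) where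
  nonneg := fun _ => Real.arccos_nonneg _
  le_pi := fun _ => Real.arccos_le_pi _
  Dnn := fun _ => Nat.cast_nonneg _
  one := PS_one a ha

end Pool.Agent.U349.ST
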