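import Pool.Agent.U349.ST.Multi

/-!
# Signs, cosines, continuous functions, boxes
-/

set_option autoImplicit false

namespace Pool.Agent.U349.ST

open Finset Filter Topology MeasureTheory

/-- the signs of the cosines -/
def AS : Set (ℝ → ℝ) := {f | ∃ k : ℕ, f = fun t => Real.sign (Real.cos (k * t))}

/-- the cosines -/
def AC : Set (ℝ → ℝ) := {f | ∃ k : ℕ, f = fun t => Real.cos (k * t)}

/-- bounded continuous functions -/
def AK : Set (ℝ → ℝ) := {f | Continuous f ∧ ∃ B : ℝ, ∀ t, |f t| ≤ B}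

/-- indicators of closed intervals in `[0, π]` -/
def AI : Set (ℝ → ℝ) := {f | ∃ α β : ℝ, 0 ≤ α ∧ α ≤ β ∧ β ≤ Real.pi ∧
  f = fun t => if α ≤ t ∧ t ≤ β then (1 : ℝ) else 0}

lemma measurable_sign : Measurable Real.sign := by
  unfold Real.sign
  refine Measurable.ite measurableSet_Iio measurable_const ?_
  exact Measurable.ite measurableSet_Ioi measurable_const measurable_const

lemma abs_sign_le (r : ℝ) : |Real.sign r| ≤ 1 := by
  rcases Real.sign_apply_eq r with h | h | h <;> rw [h] <;> norm_num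

lemma adm_AS : ∀ f ∈ AS, Adm f := by
  rintro _ ⟨k, rfl⟩
  exact ⟨measurable_sign.comp (by fun_prop), 1, fun t => abs_sign_le _⟩

lemma adm_AC : ∀ f ∈ AC, Adm f := by
  rintro _ ⟨k, rfl⟩
  exact Adm.cont (by fun_prop) (B := 1) fun t => Real.abs_cos_le_one _

lemma adm_AK : ∀ f ∈ AK, Adm f := by
  rintro f ⟨h, B, hB⟩
  exact Adm.cont h hB

lemma adm_ind (α β : ℝ) : Adm (fun t => if α ≤ t ∧ t ≤ β then (1 : ℝ) else 0) := by
  refine ⟨Measurable.ite measurableSet_Icc measurable_const measurable_const, 1, fun t => ?_⟩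
  beta_reduce
  split_ifs <;> simp

lemma adm_AI : ∀ f ∈ AI, Adm f := by
  rintro _ ⟨α, β, _, _, _, rfl⟩
  exact adm_ind α β

/-! ### approximations -/

lemma app_AC : ∀ f ∈ AC, ∀ ε : ℝ, 0 < ε → ∃ g ∈ Submodule.span ℝ AS,
    ∀ t, 0 ≤ t → t ≤ Real.pi → |f t - g t| ≤ ε := by
  rintro _ ⟨k, rfl⟩ ε hε
  obtain ⟨J, hJ⟩ := cos_approx ε hε
  refine ⟨∑ n ∈ Ico 1 J, cf n • fun t => Real.sign (Real.cos (((n * k : ℕ) : ℝ) * t)), ?_, ?_⟩
  · exact Submodule.sum_mem _ fun n _ => Submodule.smul_mem _ _ (Submodule.subset_span ⟨n * k, rfl⟩)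
  · intro t _ _
    have h := hJ (k * t)
    have h1 : (∑ n ∈ Ico 1 J, cf n • fun t => Real.sign (Real.cos (((n * k : ℕ) : ℝ) * t))) t =
        ∑ n ∈ Ico 1 J, cf n * Real.sign (Real.cos (n * (k * t))) := by
      rw [Finset.sum_apply]
      refine sum_congr rfl fun n _ => ?_
      rw [Pi.smul_apply, smul_eq_mul]
      push_cast
      rw [mul_assoc]
    rw [h1]
    exact h

lemma cosInt_mem (k : ℤ) : (fun t : ℝ => Real.cos (k * t)) ∈ AC := by
  refine ⟨k.natAbs, ?_⟩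
  funext t
  have h3 : ((k.natAbs : ℕ) : ℝ) = |(k : ℝ)| := by
    rw [← Int.cast_abs, ← Int.natCast_natAbs]; simp
  rw [h3]
  rcases abs_choice (k : ℝ) with h4 | h4
  · rw [h4]
  · rw [h4, neg_mul, Real.cos_neg]

lemma pow_mem (j : ℕ) : ∀ k : ℤ, (fun t : ℝ => Real.cos t ^ j * Real.cos (k * t)) ∈ Submodule.span ℝ AC := by
  induction j with
  | zero =>
    intro k
    simp only [pow_zero, one_mul]
    exact Submodule.subset_span (cosInt_mem k)
  | succ j ih =>
    intro k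
    have h1 : (fun t : ℝ => Real.cos t ^ (j + 1) * Real.cos (k * t)) =
        (1 / 2 : ℝ) • (fun t : ℝ => Real.cos t ^ j * Real.cos (((k + 1 : ℤ) : ℝ) * t)) +
        (1 / 2 : ℝ) • (fun t : ℝ => Real.cos t ^ j * Real.cos (((k - 1 : ℤ) : ℝ) * t)) := by
      funext t
      rw [Pi.add_apply, Pi.smul_apply, Pi.smul_apply, smul_eq_mul, smul_eq_mul]
      have e1 : ((k + 1 : ℤ) : ℝ) * t = k * t + t := by push_cast; ring
      have e2 : ((k - 1 : ℤ) : ℝ) * t = k * t - t := by push_cast; ring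
      rw [e1, e2, Real.cos_add, Real.cos_sub, pow_succ]
      ring
    rw [h1]
    exact Submodule.add_mem _ (Submodule.smul_mem _ _ (ih _)) (Submodule.smul_mem _ _ (ih _))

open Polynomial in
lemma poly_mem (p : ℝ[X]) : (fun t : ℝ => p.eval (Real.cos t)) ∈ Submodule.span ℝ AC := by
  induction p using Polynomial.induction_on' with
  | add p q hp hq =>
    have : (fun t : ℝ => (p + q).eval (Real.cos t)) = (fun t : ℝ => p.eval (Real.cos t)) +
        (fun t : ℝ => q.eval (Real.cos t)) := by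
      funext t; simp
    rw [this]
    exact Submodule.add_mem _ hp hq
  | monomial n a =>
    have : (fun t : ℝ => ((monomial n) a).eval (Real.cos t)) =
        a • (fun t : ℝ => Real.cos t ^ n * Real.cos (((0 : ℤ) : ℝ) * t)) := by
      funext t; simp
    rw [this]
    exact Submodule.smul_mem _ _ (pow_mem n 0)

lemma app_AK : ∀ f ∈ AK, ∀ ε : ℝ, 0 < ε → ∃ g ∈ Submodule.span ℝ AC,
    ∀ t, 0 ≤ t → t ≤ Real.pi → |f t - g t| ≤ ε := by
  rintro f ⟨hf, _⟩ ε hε
  obtain ⟨p, hp⟩ := exists_polynomial_near_of_continuousOn (-1) 1 (fun x => f (Real.arccos x))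
    (hf.comp Real.continuous_arccos).continuousOn ε hε
  refine ⟨_, poly_mem p, fun t ht0 ht1 => ?_⟩
  have h1 := hp (Real.cos t) ⟨Real.neg_one_le_cos t, Real.cos_le_one t⟩
  rw [Real.arccos_cos ht0 ht1] at h1
  rw [abs_sub_comm]
  exact h1.le

lemma app_AS : ∀ f ∈ AS, ∀ ε : ℝ, 0 < ε → ∃ g ∈ Submodule.span ℝ AI,
    ∀ t, 0 ≤ t → t ≤ Real.pi → |f t - g t| ≤ ε := by
  rintro _ ⟨k, rfl⟩ ε hε
  rcases Nat.eq_zero_or_pos k with hk | hk
  · refine ⟨_, Submodule.subset_span ⟨0, Real.pi, le_rfl, Real.pi_pos.le, le_rfl, rfl⟩, fun t h0 h1 => ?_⟩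
    beta_reduce
    rw [hk, Nat.cast_zero, zero_mul, Real.cos_zero, Real.sign_one, if_pos ⟨h0, h1⟩, sub_self, abs_zero]
    exact hε.le
  · refine ⟨∑ j ∈ range (k + 1), ((-1 : ℝ) ^ j) • fun t => if zz k j ≤ t ∧ t ≤ zz k (j + 1) then (1 : ℝ) else 0,
      ?_, fun t h0 h1 => ?_⟩
    · refine Submodule.sum_mem _ fun j _ => Submodule.smul_mem _ _ (Submodule.subset_span ?_)
      exact ⟨_, _, (zz_bounds k j).1, zz_mono k hk j, (zz_bounds k (j + 1)).2, rfl⟩
    · have h2 := sign_eq k hk t h0 h1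
      rw [Finset.sum_apply]
      simp only [Pi.smul_apply, smul_eq_mul]
      rw [h2, sub_self, abs_zero]
      exact hε.le

/-! ### boxes from continuous functions -/

/-- the upper trapezoids -/
noncomputable def up (α β δ t : ℝ) : ℝ := ramp (α - δ) α t * (1 - ramp β (β + δ) t)

/-- the lower trapezoids -/
noncomputable def lo (α β δ t : ℝ) : ℝ := ramp α (α + δ) t * (1 - ramp (β - δ) β t)

lemma ramp_abs (a b t : ℝ) : |ramp a b t| ≤ 1 := by
  rw [abs_of_nonneg (ramp_nonneg a b t)]; exact ramp_le_one a b t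

lemma one_sub_ramp_nonneg (a b t : ℝ) : 0 ≤ 1 - ramp a b t := by linarith [ramp_le_one a b t]

lemma one_sub_ramp_le (a b t : ℝ) : 1 - ramp a b t ≤ 1 := by linarith [ramp_nonneg a b t]

lemma up_nonneg (α β δ t : ℝ) : 0 ≤ up α β δ t := mul_nonneg (ramp_nonneg _ _ _) (one_sub_ramp_nonneg _ _ _)

lemma lo_nonneg (α β δ t : ℝ) : 0 ≤ lo α β δ t := mul_nonneg (ramp_nonneg _ _ _) (one_sub_ramp_nonneg _ _ _)

lemma up_le_one (α β δ t : ℝ) : up α β δ t ≤ 1 :=
  mul_le_one₀ (ramp_le_one _ _ _) (one_sub_ramp_nonneg _ _ _) (one_sub_ramp_le _ _ _)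

lemma lo_le_one (α β δ t : ℝ) : lo α β δ t ≤ 1 :=
  mul_le_one₀ (ramp_le_one _ _ _) (one_sub_ramp_nonneg _ _ _) (one_sub_ramp_le _ _ _)

lemma up_mem (α β δ : ℝ) : up α β δ ∈ AK := by
  refine ⟨?_, 1, fun t => ?_⟩
  · exact (ramp_continuous _ _).mul (continuous_const.sub (ramp_continuous _ _))
  · rw [abs_of_nonneg (up_nonneg _ _ _ _)]; exact up_le_one _ _ _ _

lemma lo_mem (α β δ : ℝ) : lo α β δ ∈ AK := by
  refine ⟨?_, 1, fun t => ?_⟩
  · exact (ramp_continuous _ _).mul (continuous_const.sub (ramp_continuous _ _))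
  · rw [abs_of_nonneg (lo_nonneg _ _ _ _)]; exact lo_le_one _ _ _ _

lemma ind_le_up (α β δ t : ℝ) (hδ : 0 < δ) : (if α ≤ t ∧ t ≤ β then (1 : ℝ) else 0) ≤ up α β δ t := by
  split_ifs with h
  · unfold up
    rw [ramp_eq_one (by linarith) h.1, ramp_eq_zero (by linarith) h.2]
    norm_num
  · exact up_nonneg _ _ _ _

lemma lo_le_ind (α β δ t : ℝ) (hδ : 0 < δ) : lo α β δ t ≤ (if α ≤ t ∧ t ≤ β then (1 : ℝ) else 0) := by
  split_ifs with h
  · exact lo_le_one _ _ _ _
  · rw [not_and_or, not_le, not_le] at h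
    unfold lo
    rcases h with h | h
    · rw [ramp_eq_zero (by linarith) h.le, zero_mul]
    · rw [ramp_eq_one (by linarith) h.le, sub_self, mul_zero]

lemma up_lim (α β t : ℝ) : Tendsto (fun n : ℕ => up α β (1 / ((n : ℝ) + 1)) t) atTop
    (𝓝 (if α ≤ t ∧ t ≤ β then (1 : ℝ) else 0)) := by
  split_ifs with h
  · refine tendsto_const_nhds.congr fun n => ?_
    have hδ : (0 : ℝ) < 1 / ((n : ℝ) + 1) := by positivity
    unfold up
    rw [ramp_eq_one (by linarith) h.1, ramp_eq_zero (by linarith) h.2]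
    norm_num
  · rw [not_and_or, not_le, not_le] at h
    refine tendsto_const_nhds.congr' ?_
    rcases h with h | h
    · have h1 : ∀ᶠ n : ℕ in atTop, 1 / ((n : ℝ) + 1) < α - t :=
        (tendsto_one_div_add_atTop_nhds_zero_nat).eventually_lt_const (by linarith)
      filter_upwards [h1] with n hn
      have hδ : (0 : ℝ) < 1 / ((n : ℝ) + 1) := by positivity
      unfold up
      rw [ramp_eq_zero (by linarith) (by linarith), zero_mul]
    · have h1 : ∀ᶠ n : ℕ in atTop, 1 / ((n : ℝ) + 1) < t - β :=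
        (tendsto_one_div_add_atTop_nhds_zero_nat).eventually_lt_const (by linarith)
      filter_upwards [h1] with n hn
      have hδ : (0 : ℝ) < 1 / ((n : ℝ) + 1) := by positivity
      unfold up
      rw [ramp_eq_one (a := β) (by linarith) (by linarith), sub_self, mul_zero]

lemma lo_lim (α β t : ℝ) (hα : t ≠ α) (hβ : t ≠ β) :
    Tendsto (fun n : ℕ => lo α β (1 / ((n : ℝ) + 1)) t) atTop
    (𝓝 (if α ≤ t ∧ t ≤ β then (1 : ℝ) else 0)) := by
  split_ifs with h
  · have ha : α < t := lt_of_le_of_ne h.1 (Ne.symm hα)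
    have hb : t < β := lt_of_le_of_ne h.2 hβ
    refine tendsto_const_nhds.congr' ?_
    have h1 : ∀ᶠ n : ℕ in atTop, 1 / ((n : ℝ) + 1) < t - α :=
      (tendsto_one_div_add_atTop_nhds_zero_nat).eventually_lt_const (by linarith)
    have h2 : ∀ᶠ n : ℕ in atTop, 1 / ((n : ℝ) + 1) < β - t :=
      (tendsto_one_div_add_atTop_nhds_zero_nat).eventually_lt_const (by linarith)
    filter_upwards [h1, h2] with n hn hn'
    have hδ : (0 : ℝ) < 1 / ((n : ℝ) + 1) := by positivity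
    unfold lo
    rw [ramp_eq_one (by linarith) (by linarith), ramp_eq_zero (by linarith) (by linarith)]
    norm_num
  · refine tendsto_const_nhds.congr fun n => ?_
    have hδ : (0 : ℝ) < 1 / ((n : ℝ) + 1) := by positivity
    have h1 := lo_le_ind α β _ t hδ
    rw [if_neg h] at h1
    exact le_antisymm (lo_nonneg _ _ _ _) h1

section

variable {ι : Type} {s : ℕ} {S : ℕ → Finset ι} {D : ℕ → ℝ} {θ : ι → Fin s → ℝ}
  {μ : Measure (Fin s → ℝ)}

lemma MnS_mono (hd : DataS S D θ) {f g : Fin s → ℝ → ℝ} (h0 : ∀ j t, 0 ≤ f j t) (h : ∀ j t, f j t ≤ g j t)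
    (N : ℕ) : MnS S D θ f N ≤ MnS S D θ g N := by
  refine div_le_div_of_nonneg_right ?_ (hd.Dnn N)
  exact sum_le_sum fun i _ => prod_le_prod (fun j _ => h0 j _) fun j _ => h j _

/-- boxes from bounded continuous functions -/
theorem box_of_cont [IsProbabilityMeasure μ] (hd : DataS S D θ)
    (hna : ∀ (j : Fin s) (c : ℝ), μ {x | x j = c} = 0)
    (h : ∀ f : Fin s → ℝ → ℝ, (∀ j, f j ∈ AK) → GoodS S D θ μ f) (α β : Fin s → ℝ) :
    GoodS S D θ μ (fun j t => if α j ≤ t ∧ t ≤ β j then (1 : ℝ) else 0) := by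
  set I : Fin s → ℝ → ℝ := fun j t => if α j ≤ t ∧ t ≤ β j then (1 : ℝ) else 0 with hI
  set U : ℕ → Fin s → ℝ → ℝ := fun n j => up (α j) (β j) (1 / ((n : ℝ) + 1)) with hU
  set L : ℕ → Fin s → ℝ → ℝ := fun n j => lo (α j) (β j) (1 / ((n : ℝ) + 1)) with hL
  have hδ : ∀ n : ℕ, (0 : ℝ) < 1 / ((n : ℝ) + 1) := fun n => by positivity
  have hI0 : ∀ j t, 0 ≤ I j t := by
    intro j t; simp only [hI]; split_ifs <;> norm_num
  have e1 : Tendsto (fun n => Lam μ (U n)) atTop (𝓝 (Lam μ I)) := by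
    unfold Lam
    refine tendsto_integral_of_dominated_convergence (fun _ => (1 : ℝ)) (fun n => ?_) (by simp) (fun n => ?_) ?_
    · exact (meas_prod (U n) univ fun j _ => (adm_AK _ (up_mem _ _ _)).1).aestronglyMeasurable
    · refine Filter.Eventually.of_forall fun x => ?_
      rw [Real.norm_eq_abs, abs_of_nonneg (prod_nonneg fun j _ => up_nonneg _ _ _ _)]
      exact prod_le_one (fun j _ => up_nonneg _ _ _ _) fun j _ => up_le_one _ _ _ _
    · refine Filter.Eventually.of_forall fun x => ?_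
      exact tendsto_finsetProd _ fun j _ => up_lim _ _ _
  have e2 : Tendsto (fun n => Lam μ (L n)) atTop (𝓝 (Lam μ I)) := by
    unfold Lam
    refine tendsto_integral_of_dominated_convergence (fun _ => (1 : ℝ)) (fun n => ?_) (by simp) (fun n => ?_) ?_
    · exact (meas_prod (L n) univ fun j _ => (adm_AK _ (lo_mem _ _ _)).1).aestronglyMeasurable
    · refine Filter.Eventually.of_forall fun x => ?_
      rw [Real.norm_eq_abs, abs_of_nonneg (prod_nonneg fun j _ => lo_nonneg _ _ _ _)]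
      exact prod_le_one (fun j _ => lo_nonneg _ _ _ _) fun j _ => lo_le_one _ _ _ _
    · have h1 : ∀ᵐ x ∂μ, ∀ j, x j ≠ α j ∧ x j ≠ β j := by
        rw [ae_all_iff]
        intro j
        have a1 : ∀ᵐ x ∂μ, x j ≠ α j := by
          rw [ae_iff]
          simpa using hna j (α j)
        have a2 : ∀ᵐ x ∂μ, x j ≠ β j := by
          rw [ae_iff]
          simpa using hna j (β j)
        filter_upwards [a1, a2] with x h1 h2
        exact ⟨h1, h2⟩
      filter_upwards [h1] with x hx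
      exact tendsto_finsetProd _ fun j _ => lo_lim _ _ _ (hx j).1 (hx j).2
  unfold GoodS
  rw [Metric.tendsto_atTop]
  intro ε hε
  obtain ⟨n1, hn1⟩ := Metric.tendsto_atTop.1 e1 (ε / 2) (by positivity)
  obtain ⟨n2, hn2⟩ := Metric.tendsto_atTop.1 e2 (ε / 2) (by positivity)
  obtain ⟨N1, hN1⟩ := Metric.tendsto_atTop.1 (h (U n1) fun j => up_mem _ _ _) (ε / 2) (by positivity)
  obtain ⟨N2, hN2⟩ := Metric.tendsto_atTop.1 (h (L n2) fun j => lo_mem _ _ _) (ε / 2) (by positivity)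
  refine ⟨max N1 N2, fun N hN => ?_⟩
  have b1 := hN1 N (le_trans (le_max_left _ _) hN)
  have b2 := hN2 N (le_trans (le_max_right _ _) hN)
  have b3 := hn1 n1 le_rfl
  have b4 := hn2 n2 le_rfl
  have c1 : MnS S D θ I N ≤ MnS S D θ (U n1) N :=
    MnS_mono hd hI0 (fun j t => ind_le_up _ _ _ _ (hδ n1)) N
  have c2 : MnS S D θ (L n2) N ≤ MnS S D θ I N :=
    MnS_mono hd (fun j t => lo_nonneg _ _ _ _) (fun j t => lo_le_ind _ _ _ _ (hδ n2)) N
  rw [Real.dist_eq, abs_lt] at b1 b2 b3 b4 ⊢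
  constructor <;> linarith [b1.1, b1.2, b2.1, b2.2, b3.1, b3.2, b4.1, b4.2]

/-- the law of the boxes -/
def BoxLaw (S : ℕ → Finset ι) (D : ℕ → ℝ) (θ : ι → Fin s → ℝ) (μ : Measure (Fin s → ℝ)) : Prop :=
  ∀ α β : Fin s → ℝ, (∀ j, 0 ≤ α j ∧ α j ≤ β j ∧ β j ≤ Real.pi) →
    Tendsto (fun N => (#{i ∈ S N | ∀ j, α j ≤ θ i j ∧ θ i j ≤ β j} : ℝ) / D N) atTop
      (𝓝 (μ.real {x | ∀ j, α j ≤ x j ∧ x j ≤ β j}))

/-- the law of the signs -/
def SgnLaw (S : ℕ → Finset ι) (D : ℕ → ℝ) (θ : ι → Fin s → ℝ) (μ : Measure (Fin s → ℝ)) : Prop :=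
  ∀ k : Fin s → ℕ, Tendsto (fun N => (∑ i ∈ S N, ∏ j, Real.sign (Real.cos (k j * θ i j))) / D N) atTop
    (𝓝 (∫ x, ∏ j, Real.sign (Real.cos (k j * x j)) ∂μ))

lemma prod_ind (α β x : Fin s → ℝ) : (∏ j, if α j ≤ x j ∧ x j ≤ β j then (1 : ℝ) else 0) =
    if (∀ j, α j ≤ x j ∧ x j ≤ β j) then 1 else 0 := by
  split_ifs with h
  · exact prod_eq_one fun j _ => if_pos (h j)
  · push Not at h
    obtain ⟨j, hj⟩ := h
    refine prod_eq_zero (mem_univ j) (if_neg ?_)
    rintro ⟨h1, h2⟩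
    linarith [hj h1]

lemma good_ind_iff (α β : Fin s → ℝ) :
    GoodS S D θ μ (fun j t => if α j ≤ t ∧ t ≤ β j then (1 : ℝ) else 0) ↔
    Tendsto (fun N => (#{i ∈ S N | ∀ j, α j ≤ θ i j ∧ θ i j ≤ β j} : ℝ) / D N) atTop
      (𝓝 (μ.real {x | ∀ j, α j ≤ x j ∧ x j ≤ β j})) := by
  unfold GoodS
  have h1 : Lam μ (fun j t => if α j ≤ t ∧ t ≤ β j then (1 : ℝ) else 0) =
      μ.real {x | ∀ j, α j ≤ x j ∧ x j ≤ β j} := by
    unfold Lam
    simp only [prod_ind]
    have h2 : (fun x : Fin s → ℝ => if (∀ j, α j ≤ x j ∧ x j ≤ β j) then (1 : ℝ) else 0) =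
        Set.indicator {x | ∀ j, α j ≤ x j ∧ x j ≤ β j} (fun _ => 1) := by
      funext x
      rw [Set.indicator_apply]
      rfl
    rw [h2, integral_indicator_const]
    · simp
    · have : {x : Fin s → ℝ | ∀ j, α j ≤ x j ∧ x j ≤ β j} = Set.pi Set.univ fun j => Set.Icc (α j) (β j) := by
        ext x
        rw [Set.mem_univ_pi]
        rfl
      rw [this]
      exact MeasurableSet.univ_pi fun j => measurableSet_Icc
  have h2 : ∀ N, MnS S D θ (fun j t => if α j ≤ t ∧ t ≤ β j then (1 : ℝ) else 0) N =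
      (#{i ∈ S N | ∀ j, α j ≤ θ i j ∧ θ i j ≤ β j} : ℝ) / D N := by
    intro N
    unfold MnS
    simp only [prod_ind]
    rw [sum_boole]
  rw [h1]
  exact tendsto_congr h2

/-- the signs determine the law -/
theorem boxLaw_iff [IsProbabilityMeasure μ] (hd : DataS S D θ)
    (hμ : ∀ᵐ x ∂μ, ∀ j, 0 ≤ x j ∧ x j ≤ Real.pi) (hna : ∀ (j : Fin s) (c : ℝ), μ {x | x j = c} = 0) :
    BoxLaw S D θ μ ↔ SgnLaw S D θ μ := by
  constructor
  · intro h k
    have h1 := extend hd hμ AI AS adm_AI adm_AS app_AS (fun f hf => by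
      choose α β h1 h2 h3 h4 using hf
      have : f = fun j t => if α j ≤ t ∧ t ≤ β j then (1 : ℝ) else 0 := funext h4
      rw [this, good_ind_iff]
      exact h α β fun j => ⟨h1 j, h2 j, h3 j⟩)
    exact h1 (fun j t => Real.sign (Real.cos (k j * t))) fun j => ⟨k j, rfl⟩
  · intro h
    have h1 := extend hd hμ AS AC adm_AS adm_AC app_AC (fun f hf => by
      choose k hk using hf
      have : f = fun j t => Real.sign (Real.cos (k j * t)) := funext hk
      rw [this]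
      exact h k)
    have h2 := extend hd hμ AC AK adm_AC adm_AK app_AK h1
    intro α β _
    exact (good_ind_iff α β).1 (box_of_cont hd hna h2 α β)

/-- only this direction is needed without the assumption on the measure -/
theorem cont_of_sgn [IsProbabilityMeasure μ] (hd : DataS S D θ)
    (hμ : ∀ᵐ x ∂μ, ∀ j, 0 ≤ x j ∧ x j ≤ Real.pi) (h : SgnLaw S D θ μ) :
    ∀ f : Fin s → ℝ → ℝ, (∀ j, f j ∈ AK) → GoodS S D θ μ f := by
  have h1 := extend hd hμ AS AC adm_AS adm_AC app_AC (fun f hf => by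
    choose k hk using hf
    have : f = fun j t => Real.sign (Real.cos (k j * t)) := funext hk
    rw [this]
    exact h k)
  exact extend hd hμ AC AK adm_AC adm_AK app_AK h1

end

end Pool.Agent.U349.ST
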