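import Pool.Agent.U349.ST.Fwd

/-!
# Finite form
-/

set_option autoImplicit false

namespace Pool.Agent.U349.ST

open Finset Filter Topology

/-- the expected bias of the sign of `cos (k θ)` -/
noncomputable def bias (k : ℕ) : ℝ := if k = 2 then -(2 / Real.pi) else 0

/-- the Sato-Tate measure of `[α, β]` -/
noncomputable def stm (α β : ℝ) : ℝ := 2 / Real.pi * ∫ t in α..β, Real.sin t ^ 2

lemma stm_nonneg {α β : ℝ} (h : α ≤ β) : 0 ≤ stm α β := by
  unfold stm
  have := Real.pi_pos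
  exact mul_nonneg (by positivity) (intervalIntegral.integral_nonneg h fun t _ => sq_nonneg _)

lemma stm_le {α β : ℝ} (h : α ≤ β) : stm α β ≤ β - α := by
  unfold stm
  have hpi := Real.pi_gt_three
  have h1 : ∫ t in α..β, Real.sin t ^ 2 ≤ ∫ t in α..β, (1 : ℝ) := by
    refine intervalIntegral.integral_mono_on h (sin_sq_int _ _) (by simp) fun t _ => ?_
    exact Real.sin_sq_le_one t
  rw [intervalIntegral.integral_const, smul_eq_mul, mul_one] at h1
  have h2 : 2 / Real.pi ≤ 1 := by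
    rw [div_le_one (by positivity)]; linarith
  have h3 : 0 ≤ ∫ t in α..β, Real.sin t ^ 2 := intervalIntegral.integral_nonneg h fun t _ => sq_nonneg _
  have h4 : 2 / Real.pi * ∫ t in α..β, Real.sin t ^ 2 ≤ 1 * ∫ t in α..β, Real.sin t ^ 2 :=
    mul_le_mul_of_nonneg_right h2 h3
  linarith

lemma stm_add (α β γ : ℝ) : stm α β + stm β γ = stm α γ := by
  unfold stm
  rw [← mul_add, intervalIntegral.integral_add_adjacent_intervals (sin_sq_int _ _) (sin_sq_int _ _)]

theorem finite_form (ε : ℝ) (hε : 0 < ε) : ∃ K : ℕ, ∃ δ : ℝ, 0 < δ ∧ ∀ {ι : Type} (S : Finset ι) (θ : ι → ℝ),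
    (∀ i, 0 ≤ θ i) → (∀ i, θ i ≤ Real.pi) →
    (∀ k : ℕ, 1 ≤ k → k ≤ K → |((#{i ∈ S | 0 < Real.cos (k * θ i)} : ℝ) - #{i ∈ S | Real.cos (k * θ i) < 0}) -
      bias k * #S| ≤ δ * #S) →
    ∀ α β : ℝ, 0 ≤ α → α ≤ β → β ≤ Real.pi →
      |(#{i ∈ S | α ≤ θ i ∧ θ i ≤ β} : ℝ) - stm α β * #S| ≤ ε * #S := by
  by_contra hcon
  push Not at hcon
  have hc := fun n : ℕ => hcon n (1 / ((n : ℝ) + 1)) (by positivity)
  choose ι S θ h0 h1 hk α β hα hαβ hβ hbad using hc
  have hpi := Real.pi_pos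
  -- the sets are nonempty
  have hS : ∀ n, 0 < #(S n) := by
    intro n
    rw [card_pos]
    by_contra hne
    rw [not_nonempty_iff_eq_empty] at hne
    have := hbad n
    rw [hne] at this
    simp at this
  set S' : ℕ → Finset (Σ n, ι n) := fun n => (S n).map (Function.Embedding.sigmaMk n) with hS'
  set θ' : (Σ n, ι n) → ℝ := fun x => θ x.1 x.2 with hθ'
  have hcard : ∀ n, #(S' n) = #(S n) := fun n => card_map _
  have hfil : ∀ (n : ℕ) (p : ℝ → Prop) [DecidablePred p], #{i ∈ S' n | p (θ' i)} = #{i ∈ S n | p (θ n i)} := by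
    intro n p _
    simp only [hS']
    rw [filter_map, card_map]
    rfl
  have hd : Data S' (fun n => (#(S n) : ℝ)) θ' := by
    refine ⟨fun i => h0 _ _, fun i => h1 _ _, fun _ => Nat.cast_nonneg _, ?_⟩
    refine tendsto_const_nhds.congr fun n => ?_
    rw [hcard, div_self]
    exact_mod_cast (hS n).ne'
  have hsign : SignLaw S' (fun n => (#(S n) : ℝ)) θ' := by
    intro k hk1
    rw [Metric.tendsto_atTop]
    intro η hη
    obtain ⟨N1, hN1⟩ := exists_nat_gt (1 / η)
    refine ⟨max k N1, fun n hn => ?_⟩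
    have hnk : k ≤ n := le_trans (le_max_left _ _) hn
    have hnN : (N1 : ℝ) ≤ n := by exact_mod_cast le_trans (le_max_right _ _) hn
    have h2 := hk n k hk1 hnk
    have h3 := hfil n (fun t => 0 < Real.cos (k * t))
    have h4 := hfil n (fun t => Real.cos (k * t) < 0)
    beta_reduce at h3 h4 ⊢
    rw [h3, h4, Real.dist_eq]
    have hSR : (0 : ℝ) < #(S n) := by exact_mod_cast hS n
    have h5 : ((#{i ∈ S n | 0 < Real.cos (k * θ n i)} : ℝ) - #{i ∈ S n | Real.cos (k * θ n i) < 0}) / #(S n) -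
        (if k = 2 then -(2 / Real.pi) else 0) =
        (((#{i ∈ S n | 0 < Real.cos (k * θ n i)} : ℝ) - #{i ∈ S n | Real.cos (k * θ n i) < 0}) -
          bias k * #(S n)) / #(S n) := by
      unfold bias
      field_simp
    rw [h5, abs_div, abs_of_pos hSR, div_lt_iff₀ hSR]
    refine lt_of_le_of_lt h2 ?_
    apply mul_lt_mul_of_pos_right _ hSR
    rw [div_lt_iff₀ (by positivity)]
    rw [div_lt_iff₀ hη] at hN1
    nlinarith
  have hlaw := (intLaw_iff hd).2 hsign
  -- a grid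
  obtain ⟨M, hM⟩ := exists_nat_gt (4 * Real.pi / ε)
  have hMR : (0 : ℝ) < M := lt_of_le_of_lt (by positivity) hM
  have hstep : Real.pi / M ≤ ε / 4 := by
    rw [div_lt_iff₀ hε] at hM
    rw [div_le_div_iff₀ hMR (by norm_num)]
    linarith
  set g : ℕ → ℝ := fun i => i * (Real.pi / M) with hg
  have hgrid : ∃ N0 : ℕ, ∀ n, N0 ≤ n → ∀ i ≤ M, ∀ j ≤ M, i ≤ j →
      |(#{x ∈ S' n | g i ≤ θ' x ∧ θ' x ≤ g j} : ℝ) / #(S n) - stm (g i) (g j)| ≤ ε / 4 := by
    refine Pool.Agent.U349.OB.exists_max M _ fun i hi => ?_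
    refine Pool.Agent.U349.OB.exists_max M _ fun j hj => ?_
    by_cases hij : i ≤ j
    · have hjM : (j : ℝ) ≤ M := by exact_mod_cast hj
      have hij' : (i : ℝ) ≤ j := by exact_mod_cast hij
      have h2 := hlaw (g i) (g j) (by simp only [hg]; positivity)
        (mul_le_mul_of_nonneg_right hij' (by positivity))
        (by
          simp only [hg]
          calc (j : ℝ) * (Real.pi / M) ≤ M * (Real.pi / M) := mul_le_mul_of_nonneg_right hjM (by positivity)
            _ = Real.pi := by field_simp)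
      obtain ⟨N0, hN0⟩ := Metric.tendsto_atTop.1 h2 (ε / 4) (by positivity)
      refine ⟨N0, fun n hn _ => ?_⟩
      have := hN0 n hn
      rw [Real.dist_eq] at this
      exact this.le
    · exact ⟨0, fun n _ h => absurd h hij⟩
  obtain ⟨N0, hN0⟩ := hgrid
  have h2 := hbad N0
  apply absurd h2 (not_lt.2 _)
  have hSR : (0 : ℝ) < #(S N0) := by exact_mod_cast hS N0
  -- the grid points around `α`, `β`
  set a : ℝ := α N0 with ha
  set b : ℝ := β N0 with hb
  have ha0 : 0 ≤ a := hα N0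
  have hab : a ≤ b := hαβ N0
  have hbp : b ≤ Real.pi := hβ N0
  have hpM : 0 < Real.pi / M := by positivity
  have hpt : ∀ t : ℝ, 0 ≤ t → t ≤ Real.pi → ∃ i : ℕ, i ≤ M ∧ g i ≤ t ∧ t ≤ g i + Real.pi / M := by
    intro t ht0 ht1
    refine ⟨⌊t / (Real.pi / M)⌋₊, ?_, ?_, ?_⟩
    · have h3 : t / (Real.pi / M) ≤ M := by
        rw [div_le_iff₀ hpM]
        calc t ≤ Real.pi := ht1
          _ = M * (Real.pi / M) := by field_simp
      exact Nat.floor_le_of_le h3
    · have := Nat.floor_le (div_nonneg ht0 hpM.le)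
      rw [le_div_iff₀ hpM] at this
      exact this
    · have := (Nat.lt_floor_add_one (t / (Real.pi / M))).le
      rw [div_le_iff₀ hpM] at this
      simp only [hg]
      linarith
  obtain ⟨i1, hi1, hi1a, hi1b⟩ := hpt a ha0 (hab.trans hbp)
  obtain ⟨j1, hj1, hj1a, hj1b⟩ := hpt b (ha0.trans hab) hbp
  have hgM : ∀ i : ℕ, i ≤ M → g i ≤ Real.pi := by
    intro i hi
    have hi' : (i : ℝ) ≤ M := by exact_mod_cast hi
    simp only [hg]
    calc (i : ℝ) * (Real.pi / M) ≤ M * (Real.pi / M) := mul_le_mul_of_nonneg_right hi' (by positivity)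
      _ = Real.pi := by field_simp
  have hg0 : ∀ i : ℕ, 0 ≤ g i := fun i => by simp only [hg]; positivity
  have hgs : ∀ i : ℕ, g (i + 1) = g i + Real.pi / M := by
    intro i; simp only [hg]; push_cast; ring
  have hgle : ∀ i j : ℕ, i ≤ j → g i ≤ g j := by
    intro i j h
    have h' : (i : ℝ) ≤ j := by exact_mod_cast h
    exact mul_le_mul_of_nonneg_right h' (by positivity)
  have cnt : ∀ u v : ℝ, (#{x ∈ S' N0 | u ≤ θ' x ∧ θ' x ≤ v} : ℝ) = #{x ∈ S N0 | u ≤ θ N0 x ∧ θ N0 x ≤ v} := by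
    intro u v
    exact_mod_cast hfil N0 (fun t => u ≤ t ∧ t ≤ v)
  have cmono : ∀ u v u' v' : ℝ, u' ≤ u → v ≤ v' → (#{x ∈ S N0 | u ≤ θ N0 x ∧ θ N0 x ≤ v} : ℝ) ≤
      #{x ∈ S N0 | u' ≤ θ N0 x ∧ θ N0 x ≤ v'} := by
    intro u v u' v' hu hv
    have : #{x ∈ S N0 | u ≤ θ N0 x ∧ θ N0 x ≤ v} ≤ #{x ∈ S N0 | u' ≤ θ N0 x ∧ θ N0 x ≤ v'} := by
      apply card_le_card
      intro x hx
      rw [mem_filter] at hx ⊢
      exact ⟨hx.1, by linarith [hx.2.1], by linarith [hx.2.2]⟩
    exact_mod_cast this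
  -- upper bound with the grid interval `[g i1, g j2]`, `j2 = min (j1 + 1) M`
  have hup : (#{x ∈ S N0 | a ≤ θ N0 x ∧ θ N0 x ≤ b} : ℝ) ≤ (stm a b + ε) * #(S N0) := by
    set j2 : ℕ := min (j1 + 1) M with hj2
    have hj2M : j2 ≤ M := min_le_right _ _
    have hb2 : b ≤ g j2 := by
      rcases le_total (j1 + 1) M with h | h
      · rw [hj2, min_eq_left h, hgs]; exact hj1b
      · rw [hj2, min_eq_right h]
        have : g M = Real.pi := by simp only [hg]; field_simp
        rw [this]; exact hbp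
    have hj2b : g j2 ≤ b + Real.pi / M := by
      have : g j2 ≤ g (j1 + 1) := hgle _ _ (min_le_left _ _)
      rw [hgs] at this
      linarith
    have hij : i1 ≤ j2 := by
      by_contra h
      push Not at h
      have h4 : g (j2 + 1) ≤ g i1 := hgle _ _ h
      rw [hgs] at h4
      linarith
    have h5 := hN0 N0 le_rfl i1 hi1 j2 hj2M hij
    rw [cnt] at h5
    have h6 := (abs_le.1 h5).2
    have h7 : (#{x ∈ S N0 | g i1 ≤ θ N0 x ∧ θ N0 x ≤ g j2} : ℝ) ≤ (stm (g i1) (g j2) + ε / 4) * #(S N0) := by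
      have : (#{x ∈ S N0 | g i1 ≤ θ N0 x ∧ θ N0 x ≤ g j2} : ℝ) / #(S N0) ≤ stm (g i1) (g j2) + ε / 4 := by linarith
      rwa [div_le_iff₀ hSR] at this
    have h8 := cmono a b (g i1) (g j2) hi1a hb2
    have h9 : stm (g i1) (g j2) ≤ stm a b + ε / 2 := by
      have e1 := stm_add (g i1) a b
      have e2 := stm_add (g i1) b (g j2)
      have e3 := stm_le hi1a
      have e4 := stm_le hb2
      linarith
    have h10 : (stm (g i1) (g j2) + ε / 4) * #(S N0) ≤ (stm a b + ε) * #(S N0) :=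
      mul_le_mul_of_nonneg_right (by linarith) hSR.le
    linarith
  -- lower bound with the grid interval `[g i2, g j1]`, `i2 = i1 + 1`
  have hlo : (stm a b - ε) * #(S N0) ≤ (#{x ∈ S N0 | a ≤ θ N0 x ∧ θ N0 x ≤ b} : ℝ) := by
    by_cases hij : i1 + 1 ≤ j1
    · have h5 := hN0 N0 le_rfl (i1 + 1) (hij.trans hj1) j1 hj1 hij
      rw [cnt] at h5
      have h6 := (abs_le.1 h5).1
      have h7 : (stm (g (i1 + 1)) (g j1) - ε / 4) * #(S N0) ≤
          (#{x ∈ S N0 | g (i1 + 1) ≤ θ N0 x ∧ θ N0 x ≤ g j1} : ℝ) := by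
        have : stm (g (i1 + 1)) (g j1) - ε / 4 ≤
            (#{x ∈ S N0 | g (i1 + 1) ≤ θ N0 x ∧ θ N0 x ≤ g j1} : ℝ) / #(S N0) := by linarith
        rwa [le_div_iff₀ hSR] at this
      have ha2 : a ≤ g (i1 + 1) := by rw [hgs]; exact hi1b
      have h8 := cmono (g (i1 + 1)) (g j1) a b ha2 hj1a
      have h9 : stm a b ≤ stm (g (i1 + 1)) (g j1) + ε / 2 := by
        have e1 := stm_add a (g (i1 + 1)) (g j1)
        have e2 := stm_add a (g j1) b
        have e3 := stm_le ha2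
        have e4 := stm_le hj1a
        rw [hgs] at e3 e1 ⊢
        linarith
      have h10 : (stm a b - ε) * #(S N0) ≤ (stm (g (i1 + 1)) (g j1) - ε / 4) * #(S N0) :=
        mul_le_mul_of_nonneg_right (by linarith) hSR.le
      linarith
    · push Not at hij
      have h3 : g j1 ≤ g i1 := hgle _ _ (by omega)
      have h4 := stm_le hab
      have h5 : stm a b - ε ≤ 0 := by linarith
      have h6 : (stm a b - ε) * #(S N0) ≤ 0 := mul_nonpos_of_nonpos_of_nonneg h5 hSR.le
      exact h6.trans (Nat.cast_nonneg _)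
  rw [abs_le]
  constructor <;> nlinarith

end Pool.Agent.U349.ST
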