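import Pool.Agent.U349.ST.Iff

/-!
# The Sato-Tate law gives the law of the signs
-/

set_option autoImplicit false

namespace Pool.Agent.U349.ST

open Finset Filter Topology

/-! ### alternating sums -/

lemma abel (H : ℕ → ℝ) (k : ℕ) : ∑ j ∈ range (k + 1), (-1) ^ j * (H (j + 1) - H j) =
    (-1) ^ k * H (k + 1) - H 0 + 2 * ∑ j ∈ range k, (-1) ^ j * H (j + 1) := by
  induction k with
  | zero => simp
  | succ k ih =>
    rw [sum_range_succ, ih, sum_range_succ _ k, pow_succ]
    ring

lemma alt_odd (k : ℕ) : ∑ j ∈ range k, (-1 : ℝ) ^ j * (2 * j + 1) = -((-1) ^ k * k) := by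
  induction k with
  | zero => simp
  | succ k ih =>
    rw [sum_range_succ, ih, pow_succ]
    push_cast; ring

lemma telescope (s : ℕ → ℝ) (k : ℕ) : ∑ j ∈ range k, (-1 : ℝ) ^ j * (s (j + 1) + s j) =
    s 0 - (-1) ^ k * s k := by
  induction k with
  | zero => simp
  | succ k ih =>
    rw [sum_range_succ, ih, pow_succ]
    ring

/-- the alternating sum of the sines -/
lemma alt_sin (k : ℕ) (hk : 1 ≤ k) : ∑ j ∈ range k, (-1 : ℝ) ^ j * Real.sin ((2 * j + 1) * Real.pi / k) =
    if k = 2 then 2 else 0 := by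
  have hkR : (0 : ℝ) < k := by exact_mod_cast hk
  split_ifs with h
  · subst h
    rw [sum_range_succ, sum_range_one]
    push_cast
    have h1 : (2 * (0 : ℝ) + 1) * Real.pi / 2 = Real.pi / 2 := by ring
    have h2 : (2 * (1 : ℝ) + 1) * Real.pi / 2 = Real.pi / 2 + Real.pi := by ring
    rw [h1, h2, Real.sin_add_pi, Real.sin_pi_div_two]
    norm_num
  · set T : ℝ := ∑ j ∈ range k, (-1 : ℝ) ^ j * Real.sin ((2 * j + 1) * Real.pi / k) with hT
    have h1 : 2 * Real.cos (Real.pi / k) * T = 0 := by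
      have h2 := telescope (fun j => Real.sin (2 * j * Real.pi / k)) k
      have h3 : Real.sin (2 * (k : ℝ) * Real.pi / k) = 0 := by
        have : 2 * (k : ℝ) * Real.pi / k = 2 * Real.pi := by field_simp
        rw [this, Real.sin_two_pi]
      simp only [h3, Nat.cast_zero, mul_zero, zero_mul, zero_div, Real.sin_zero, sub_zero] at h2
      rw [← h2, hT, mul_sum]
      refine sum_congr rfl fun j _ => ?_
      have e1 : 2 * ((j + 1 : ℕ) : ℝ) * Real.pi / k = (2 * j + 1) * Real.pi / k + Real.pi / k := by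
        push_cast; ring
      have e2 : 2 * (j : ℝ) * Real.pi / k = (2 * j + 1) * Real.pi / k - Real.pi / k := by ring
      rw [e1, e2, Real.sin_add, Real.sin_sub]
      ring
    have h4 : Real.cos (Real.pi / k) ≠ 0 := by
      have hpi := Real.pi_pos
      by_cases hk1 : k = 1
      · rw [hk1]; simp
      · have hk3 : (3 : ℝ) ≤ k := by
          have : 3 ≤ k := by omega
          exact_mod_cast this
        apply ne_of_gt
        apply Real.cos_pos_of_mem_Ioo
        constructor
        · have : 0 < Real.pi / k := by positivity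
          linarith
        · rw [div_lt_div_iff_of_pos_left hpi hkR (by norm_num)]
          linarith
    rcases mul_eq_zero.1 h1 with h5 | h5
    · exact absurd (by linarith : Real.cos (Real.pi / k) = 0) h4
    · exact h5

/-! ### the sign as a combination of indicators -/

/-- the zeros of `cos (k t)` -/
noncomputable def zr (k : ℕ) (j : ℕ) : ℝ := (2 * j - 1) * Real.pi / (2 * k)

/-- the zeros, cut off at `0` and `π` -/
noncomputable def zz (k : ℕ) (j : ℕ) : ℝ := max 0 (min Real.pi (zr k j))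

lemma zr_mono (k : ℕ) (hk : 1 ≤ k) {i j : ℕ} (h : i ≤ j) : zr k i ≤ zr k j := by
  have hkR : (0 : ℝ) < k := by exact_mod_cast hk
  have h' : (i : ℝ) ≤ j := by exact_mod_cast h
  unfold zr
  have := Real.pi_pos
  apply div_le_div_of_nonneg_right _ (by positivity)
  apply mul_le_mul_of_nonneg_right _ this.le
  linarith

lemma zz_zero (k : ℕ) (hk : 1 ≤ k) : zz k 0 = 0 := by
  have hkR : (0 : ℝ) < k := by exact_mod_cast hk
  unfold zz zr
  apply max_eq_left
  refine (min_le_right _ _).trans ?_
  have := Real.pi_pos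
  apply div_nonpos_of_nonpos_of_nonneg _ (by positivity)
  push_cast
  nlinarith

lemma zz_last (k : ℕ) (hk : 1 ≤ k) : zz k (k + 1) = Real.pi := by
  have hkR : (0 : ℝ) < k := by exact_mod_cast hk
  have hpi := Real.pi_pos
  unfold zz zr
  rw [min_eq_left, max_eq_right hpi.le]
  rw [le_div_iff₀ (by positivity)]
  push_cast
  nlinarith

lemma zz_mid (k : ℕ) (hk : 1 ≤ k) (j : ℕ) (hj : j < k) : zz k (j + 1) = (2 * j + 1) * Real.pi / (2 * k) := by
  have hkR : (0 : ℝ) < k := by exact_mod_cast hk
  have hpi := Real.pi_pos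
  have hj' : (j : ℝ) + 1 ≤ k := by exact_mod_cast hj
  unfold zz zr
  have h1 : (2 * ((j + 1 : ℕ) : ℝ) - 1) = 2 * j + 1 := by push_cast; ring
  rw [h1, min_eq_right, max_eq_right (by positivity)]
  rw [div_le_iff₀ (by positivity)]
  nlinarith

lemma zz_bounds (k j : ℕ) : 0 ≤ zz k j ∧ zz k j ≤ Real.pi :=
  ⟨le_max_left _ _, max_le Real.pi_pos.le (min_le_left _ _)⟩

lemma zz_mono (k : ℕ) (hk : 1 ≤ k) (j : ℕ) : zz k j ≤ zz k (j + 1) := by
  unfold zz
  exact max_le_max le_rfl (min_le_min le_rfl (zr_mono k hk (Nat.le_succ j)))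

/-- the key identity -/
lemma sign_eq (k : ℕ) (hk : 1 ≤ k) (t : ℝ) (h0 : 0 ≤ t) (h1 : t ≤ Real.pi) :
    Real.sign (Real.cos (k * t)) =
      ∑ j ∈ range (k + 1), (-1) ^ j * (if zz k j ≤ t ∧ t ≤ zz k (j + 1) then (1 : ℝ) else 0) := by
  have hkR : (0 : ℝ) < k := by exact_mod_cast hk
  have hpi := Real.pi_pos
  -- membership in terms of the zeros
  have hmem : ∀ j, j ∈ range (k + 1) → ((zz k j ≤ t ∧ t ≤ zz k (j + 1)) ↔ (zr k j ≤ t ∧ t ≤ zr k (j + 1))) := by
    intro j hj
    rw [mem_range] at hj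
    have e1 : zz k j ≤ t ↔ zr k j ≤ t := by
      rcases Nat.eq_zero_or_pos j with hj0 | hj0
      · rw [hj0, zz_zero k hk]
        have : zr k 0 ≤ 0 := by
          unfold zr
          apply div_nonpos_of_nonpos_of_nonneg _ (by positivity)
          push_cast; nlinarith
        exact ⟨fun _ => this.trans h0, fun _ => h0⟩
      · obtain ⟨i, rfl⟩ : ∃ i, j = i + 1 := ⟨j - 1, by omega⟩
        rw [zz_mid k hk i (by omega)]
        unfold zr
        push_cast
        have : (2 * ((i : ℝ) + 1) - 1) = 2 * i + 1 := by ring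
        rw [this]
    have e2 : t ≤ zz k (j + 1) ↔ t ≤ zr k (j + 1) := by
      by_cases hjk : j < k
      · rw [zz_mid k hk j hjk]
        unfold zr
        push_cast
        have : (2 * ((j : ℝ) + 1) - 1) = 2 * j + 1 := by ring
        rw [this]
      · have : j = k := by omega
        rw [this, zz_last k hk]
        have h2 : Real.pi ≤ zr k (k + 1) := by
          unfold zr
          rw [le_div_iff₀ (by positivity)]
          push_cast
          nlinarith
        exact ⟨fun _ => h1.trans h2, fun _ => h1⟩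
    rw [e1, e2]
  rw [sum_congr rfl fun j hj => by rw [if_congr (hmem j hj) rfl rfl]]
  -- the position of `t`
  set x : ℝ := k * t / Real.pi + 1 / 2 with hx
  have hx0 : 0 ≤ x := by positivity
  set j0 : ℕ := ⌊x⌋₊ with hj0
  have hj0a : (j0 : ℝ) ≤ x := Nat.floor_le hx0
  have hj0b : x < j0 + 1 := Nat.lt_floor_add_one x
  have hzr : ∀ j : ℕ, zr k j ≤ t ↔ (j : ℝ) ≤ x := by
    intro j
    unfold zr
    rw [div_le_iff₀ (by positivity), hx]
    have : (j : ℝ) ≤ k * t / Real.pi + 1 / 2 ↔ (j - 1 / 2) ≤ k * t / Real.pi := by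
      constructor <;> intro h <;> linarith
    rw [this, le_div_iff₀ hpi]
    constructor <;> intro h <;> nlinarith
  have hzr' : ∀ j : ℕ, t ≤ zr k j ↔ x ≤ (j : ℝ) := by
    intro j
    unfold zr
    rw [le_div_iff₀ (by positivity), hx]
    have : k * t / Real.pi + 1 / 2 ≤ (j : ℝ) ↔ k * t / Real.pi ≤ (j - 1 / 2) := by
      constructor <;> intro h <;> linarith
    rw [this, div_le_iff₀ hpi]
    constructor <;> intro h <;> nlinarith
  have hj0k : j0 ≤ k := by
    have h2 : (j0 : ℝ) < k + 1 := by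
      have : x ≤ k + 1 / 2 := by
        rw [hx]
        have : k * t / Real.pi ≤ k := by
          rw [div_le_iff₀ hpi]
          exact mul_le_mul_of_nonneg_left h1 hkR.le
        linarith
      linarith
    have : j0 < k + 1 := by exact_mod_cast h2
    omega
  have hcos : Real.cos (k * t) = (-1) ^ j0 * Real.cos (Real.pi * (x - j0 - 1 / 2)) := by
    have e1 : (k : ℝ) * t = Real.pi * (x - j0 - 1 / 2) + j0 * Real.pi := by
      rw [hx]; field_simp; ring
    rw [e1, Real.cos_add_nat_mul_pi]
  rcases hj0a.eq_or_lt with heq | hlt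
  · -- `t` is a zero
    have hj0pos : 1 ≤ j0 := by
      rcases Nat.eq_zero_or_pos j0 with h | h
      · exfalso
        rw [h] at heq
        have : (0 : ℝ) < x := by rw [hx]; positivity
        push_cast at heq
        linarith
      · exact h
    have hc : Real.cos (k * t) = 0 := by
      rw [hcos, ← heq]
      have : Real.pi * ((j0 : ℝ) - j0 - 1 / 2) = -(Real.pi / 2) := by ring
      rw [this, Real.cos_neg, Real.cos_pi_div_two, mul_zero]
    rw [hc, Real.sign_zero]
    obtain ⟨i, hi⟩ : ∃ i, j0 = i + 1 := ⟨j0 - 1, by omega⟩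
    have hsplit : ∀ j ∈ range (k + 1), (-1 : ℝ) ^ j * (if zr k j ≤ t ∧ t ≤ zr k (j + 1) then (1 : ℝ) else 0) =
        (if j = i + 1 then (-1 : ℝ) ^ (i + 1) else 0) + (if j = i then (-1 : ℝ) ^ i else 0) := by
      intro j _
      have hiff : (zr k j ≤ t ∧ t ≤ zr k (j + 1)) ↔ (j = i + 1 ∨ j = i) := by
        rw [hzr, hzr', ← heq, hi]
        constructor
        · rintro ⟨a1, a2⟩
          have b1 : j ≤ i + 1 := by exact_mod_cast a1
          have b2 : i + 1 ≤ j + 1 := by exact_mod_cast a2
          omega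
        · rintro (rfl | rfl)
          · constructor
            · exact le_rfl
            · push_cast; linarith
          · constructor
            · push_cast; linarith
            · exact le_rfl
      by_cases a1 : j = i + 1
      · rw [if_pos (hiff.2 (Or.inl a1)), if_pos a1, if_neg (by omega), a1]; ring
      · by_cases a2 : j = i
        · rw [if_pos (hiff.2 (Or.inr a2)), if_neg a1, if_pos a2, a2]; ring
        · rw [if_neg (fun h => by rcases hiff.1 h with h | h <;> contradiction), if_neg a1, if_neg a2]; ring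
    rw [sum_congr rfl hsplit, sum_add_distrib, sum_ite_eq', sum_ite_eq', if_pos (mem_range.2 (by omega)),
      if_pos (mem_range.2 (by omega)), pow_succ]
    ring
  · -- `t` is not a zero
    have hc : 0 < Real.cos (Real.pi * (x - j0 - 1 / 2)) := by
      apply Real.cos_pos_of_mem_Ioo
      constructor <;> nlinarith
    have hs : Real.sign (Real.cos (k * t)) = (-1) ^ j0 := by
      rw [hcos]
      rcases neg_one_pow_eq_or ℝ j0 with h | h
      · rw [h, one_mul, Real.sign_of_pos hc]
      · rw [h, Real.sign_of_neg (by linarith)]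
    rw [hs]
    have hsplit : ∀ j ∈ range (k + 1), (-1 : ℝ) ^ j * (if zr k j ≤ t ∧ t ≤ zr k (j + 1) then (1 : ℝ) else 0) =
        if j = j0 then (-1 : ℝ) ^ j0 else 0 := by
      intro j _
      have hiff : (zr k j ≤ t ∧ t ≤ zr k (j + 1)) ↔ j = j0 := by
        rw [hzr, hzr']
        constructor
        · rintro ⟨a1, a2⟩
          have b1 : (j : ℝ) < j0 + 1 := lt_of_le_of_lt a1 hj0b
          have b2 : (j0 : ℝ) < ((j + 1 : ℕ) : ℝ) := lt_of_lt_of_le hlt a2
          have b3 : j < j0 + 1 := by exact_mod_cast b1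
          have b4 : j0 < j + 1 := by exact_mod_cast b2
          omega
        · rintro rfl
          constructor
          · exact hlt.le
          · push_cast; exact hj0b.le
      by_cases a1 : j = j0
      · rw [if_pos (hiff.2 a1), if_pos a1, a1, mul_one]
      · rw [if_neg (fun h => a1 (hiff.1 h)), if_neg a1, mul_zero]
    rw [sum_congr rfl hsplit, sum_ite_eq', if_pos (mem_range.2 (by omega))]

section

variable {ι : Type} {S : ℕ → Finset ι} {D : ℕ → ℝ} {θ : ι → ℝ}

theorem signLaw_of_intLaw (hd : Data S D θ) (h : IntLaw S D θ) : SignLaw S D θ := by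
  intro k hk
  have hkR : (0 : ℝ) < k := by exact_mod_cast hk
  have hpi := Real.pi_pos
  have h1 : Tendsto (fun N => ∑ j ∈ range (k + 1), (-1 : ℝ) ^ j *
      ((#{i ∈ S N | zz k j ≤ θ i ∧ θ i ≤ zz k (j + 1)} : ℝ) / D N)) atTop
      (𝓝 (∑ j ∈ range (k + 1), (-1 : ℝ) ^ j * (2 / Real.pi * ∫ t in zz k j..zz k (j + 1), Real.sin t ^ 2))) := by
    refine tendsto_finsetSum _ fun j _ => ?_
    exact (h _ _ (zz_bounds k j).1 (zz_mono k hk j) (zz_bounds k (j + 1)).2).const_mul _
  have hval : ∑ j ∈ range (k + 1), (-1 : ℝ) ^ j * (2 / Real.pi * ∫ t in zz k j..zz k (j + 1), Real.sin t ^ 2) =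
      if k = 2 then -(2 / Real.pi) else 0 := by
    set H : ℕ → ℝ := fun j => (zz k j - Real.sin (zz k j) * Real.cos (zz k j)) / Real.pi with hH
    have e1 : ∀ j ∈ range (k + 1), (-1 : ℝ) ^ j * (2 / Real.pi * ∫ t in zz k j..zz k (j + 1), Real.sin t ^ 2) =
        (-1) ^ j * (H (j + 1) - H j) := by
      intro j _
      rw [integral_sin_sq]
      simp only [hH]
      congr 1
      field_simp
      ring
    rw [sum_congr rfl e1, abel]
    have e2 : H (k + 1) = 1 := by
      simp only [hH]
      rw [zz_last k hk, Real.sin_pi]; field_simp; ring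
    have e3 : H 0 = 0 := by
      simp only [hH]
      rw [zz_zero k hk, Real.sin_zero]; simp
    have e4 : ∑ j ∈ range k, (-1 : ℝ) ^ j * H (j + 1) =
        (1 / (2 * k)) * ∑ j ∈ range k, (-1 : ℝ) ^ j * (2 * j + 1) -
        (1 / (2 * Real.pi)) * ∑ j ∈ range k, (-1 : ℝ) ^ j * Real.sin ((2 * j + 1) * Real.pi / k) := by
      rw [mul_sum, mul_sum, ← sum_sub_distrib]
      refine sum_congr rfl fun j hj => ?_
      simp only [hH]
      rw [zz_mid k hk j (mem_range.1 hj)]
      have e5 : (2 * (j : ℝ) + 1) * Real.pi / k = 2 * ((2 * j + 1) * Real.pi / (2 * k)) := by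
        field_simp
      rw [e5, Real.sin_two_mul]
      field_simp
    rw [e2, e3, e4, alt_odd, alt_sin k hk]
    split_ifs with hk2
    · rw [hk2]; field_simp; norm_num; ring
    · field_simp; ring
  rw [hval] at h1
  refine h1.congr fun N => ?_
  rw [← Mn_sign]
  unfold Mn
  have e1 : ∑ i ∈ S N, Real.sign (Real.cos (k * θ i)) = ∑ j ∈ range (k + 1), (-1 : ℝ) ^ j *
      (#{i ∈ S N | zz k j ≤ θ i ∧ θ i ≤ zz k (j + 1)} : ℝ) := by
    rw [sum_congr rfl fun i _ => sign_eq k hk (θ i) (hd.nonneg i) (hd.le_pi i), sum_comm]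
    refine sum_congr rfl fun j _ => ?_
    rw [← mul_sum, sum_boole]
  rw [e1, sum_div]
  refine sum_congr rfl fun j _ => ?_
  rw [mul_div_assoc]

/-- **the Sato-Tate law is the law of the signs** -/
theorem intLaw_iff (hd : Data S D θ) : IntLaw S D θ ↔ SignLaw S D θ :=
  ⟨signLaw_of_intLaw hd, fun h => intLaw_of_cosLaw hd (cosLaw_of_signLaw hd h)⟩

end

end Pool.Agent.U349.ST
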