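import Pool.Agent.U349.ST.Law

/-!
# The Sato-Tate law is equivalent to the law of the signs
-/

set_option autoImplicit false

namespace Pool.Agent.U349.ST

open Finset Filter Topology

section

variable {ι : Type} {S : ℕ → Finset ι} {D : ℕ → ℝ} {θ : ι → ℝ}

/-! ### ramps and tails -/

lemma It_ramp_ge {a b : ℝ} (hab : a < b) (ha : 0 ≤ a) (hb : b ≤ Real.pi) : Tl b ≤ It (ramp a b) := by
  unfold Tl It
  have hpi := Real.pi_pos
  refine mul_le_mul_of_nonneg_left ?_ (by positivity)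
  have c : ∀ u v : ℝ, IntervalIntegrable (fun t => ramp a b t * Real.sin t ^ 2) MeasureTheory.volume u v :=
    fun u v => ((ramp_continuous a b).mul (Real.continuous_sin.pow 2)).intervalIntegrable _ _
  rw [← intervalIntegral.integral_add_adjacent_intervals (c 0 b) (c b Real.pi)]
  have h1 : ∫ t in b..Real.pi, ramp a b t * Real.sin t ^ 2 = ∫ t in b..Real.pi, Real.sin t ^ 2 := by
    refine intervalIntegral.integral_congr fun t ht => ?_
    rw [Set.uIcc_of_le hb] at ht
    beta_reduce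
    rw [ramp_eq_one hab ht.1, one_mul]
  have h2 : 0 ≤ ∫ t in (0 : ℝ)..b, ramp a b t * Real.sin t ^ 2 :=
    intervalIntegral.integral_nonneg (by linarith) fun t _ => mul_nonneg (ramp_nonneg _ _ _) (sq_nonneg _)
  rw [h1]
  linarith

lemma It_ramp_le {a b : ℝ} (hab : a < b) (ha : 0 ≤ a) (hb : b ≤ Real.pi) : It (ramp a b) ≤ Tl a := by
  unfold Tl It
  have hpi := Real.pi_pos
  refine mul_le_mul_of_nonneg_left ?_ (by positivity)
  have c : ∀ u v : ℝ, IntervalIntegrable (fun t => ramp a b t * Real.sin t ^ 2) MeasureTheory.volume u v :=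
    fun u v => ((ramp_continuous a b).mul (Real.continuous_sin.pow 2)).intervalIntegrable _ _
  rw [← intervalIntegral.integral_add_adjacent_intervals (c 0 a) (c a Real.pi)]
  have h1 : ∫ t in (0 : ℝ)..a, ramp a b t * Real.sin t ^ 2 = 0 := by
    have h3 : ∫ t in (0 : ℝ)..a, ramp a b t * Real.sin t ^ 2 = ∫ t in (0 : ℝ)..a, (0 : ℝ) := by
      refine intervalIntegral.integral_congr fun t ht => ?_
      rw [Set.uIcc_of_le ha] at ht
      beta_reduce
      rw [ramp_eq_zero hab ht.2, zero_mul]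
    rw [h3]; simp
  rw [h1, zero_add]
  refine intervalIntegral.integral_mono_on (by linarith) (c _ _) (sin_sq_int _ _) fun t _ => ?_
  exact mul_le_of_le_one_left (sq_nonneg _) (ramp_le_one _ _ _)

lemma Tl_close {a b : ℝ} (hab : a ≤ b) : Tl a ≤ Tl b + 2 / Real.pi * (b - a) := by
  have h := Tl_sub (a := a) (b := b)
  have hpi := Real.pi_pos
  have h1 : ∫ t in a..b, Real.sin t ^ 2 ≤ ∫ t in a..b, (1 : ℝ) := by
    refine intervalIntegral.integral_mono_on hab (sin_sq_int _ _) (by simp) fun t _ => ?_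
    exact Real.sin_sq_le_one t
  rw [intervalIntegral.integral_const, smul_eq_mul, mul_one] at h1
  have h2 : 2 / Real.pi * ∫ t in a..b, Real.sin t ^ 2 ≤ 2 / Real.pi * (b - a) :=
    mul_le_mul_of_nonneg_left h1 (by positivity)
  linarith

lemma Tl_zero : Tl 0 = 1 := by
  unfold Tl
  rw [integral_sin_sq_pi]; field_simp

lemma Tl_pi : Tl Real.pi = 0 := by unfold Tl; simp

/-- the number of the angles `≥ c`, divided by `D` -/
noncomputable def tge (S : ℕ → Finset ι) (D : ℕ → ℝ) (θ : ι → ℝ) (c : ℝ) (N : ℕ) : ℝ :=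
  (#{i ∈ S N | c ≤ θ i} : ℝ) / D N

/-- the number of the angles `> c`, divided by `D` -/
noncomputable def tgt (S : ℕ → Finset ι) (D : ℕ → ℝ) (θ : ι → ℝ) (c : ℝ) (N : ℕ) : ℝ :=
  (#{i ∈ S N | c < θ i} : ℝ) / D N

lemma tgt_le_tge (hd : Data S D θ) (c : ℝ) (N : ℕ) : tgt S D θ c N ≤ tge S D θ c N := by
  refine div_le_div_of_nonneg_right ?_ (hd.Dnn N)
  have : #{i ∈ S N | c < θ i} ≤ #{i ∈ S N | c ≤ θ i} := by
    apply card_le_card
    intro i hi
    rw [mem_filter] at hi ⊢
    exact ⟨hi.1, hi.2.le⟩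
  exact_mod_cast this

lemma Mn_ramp_le_tgt (hd : Data S D θ) {a b : ℝ} (hab : a < b) (N : ℕ) :
    Mn S D θ (ramp a b) N ≤ tgt S D θ a N := by
  refine div_le_div_of_nonneg_right ?_ (hd.Dnn N)
  rw [← sum_boole]
  refine sum_le_sum fun i _ => ?_
  split_ifs with h
  · exact ramp_le_one _ _ _
  · rw [ramp_eq_zero hab (not_lt.1 h)]

lemma tge_le_Mn_ramp (hd : Data S D θ) {a b : ℝ} (hab : a < b) (N : ℕ) :
    tge S D θ b N ≤ Mn S D θ (ramp a b) N := by
  refine div_le_div_of_nonneg_right ?_ (hd.Dnn N)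
  rw [← sum_boole]
  refine sum_le_sum fun i _ => ?_
  split_ifs with h
  · rw [ramp_eq_one hab h]
  · exact ramp_nonneg _ _ _

/-- upper bounds for the tails -/
lemma tge_upper (hd : Data S D θ) (h : CosLaw S D θ) (c : ℝ) (hc0 : 0 ≤ c) (hc : c ≤ Real.pi)
    (ε : ℝ) (hε : 0 < ε) : ∃ N0 : ℕ, ∀ N, N0 ≤ N → tge S D θ c N ≤ Tl c + ε := by
  have hpi := Real.pi_pos
  rcases hc0.eq_or_lt with h0 | h0
  · obtain ⟨N0, hN0⟩ := Metric.tendsto_atTop.1 hd.one ε hε
    refine ⟨N0, fun N hN => ?_⟩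
    have h1 := hN0 N hN
    rw [Real.dist_eq] at h1
    have h2 := (abs_lt.1 h1).2
    rw [← h0, Tl_zero]
    have h3 : tge S D θ 0 N ≤ (#(S N) : ℝ) / D N := by
      refine div_le_div_of_nonneg_right ?_ (hd.Dnn N)
      exact_mod_cast card_le_card (filter_subset _ _)
    linarith
  · set a : ℝ := max 0 (c - ε * Real.pi / 4) with ha
    have ha0 : 0 ≤ a := le_max_left _ _
    have hac : a < c := max_lt h0 (by nlinarith [mul_pos hε hpi])
    have hca : c - a ≤ ε * Real.pi / 4 := by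
      have := le_max_right 0 (c - ε * Real.pi / 4)
      linarith
    obtain ⟨N0, hN0⟩ := Metric.tendsto_atTop.1 (good_continuous hd h (ramp_continuous a c)) (ε / 2) (by positivity)
    refine ⟨N0, fun N hN => ?_⟩
    have h1 := hN0 N hN
    rw [Real.dist_eq] at h1
    have h2 := (abs_lt.1 h1).2
    have h3 := tge_le_Mn_ramp hd hac N
    have h4 := It_ramp_le hac ha0 hc
    have h5 := Tl_close hac.le
    have h6 : 2 / Real.pi * (c - a) ≤ ε / 2 := by
      calc 2 / Real.pi * (c - a) ≤ 2 / Real.pi * (ε * Real.pi / 4) :=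
            mul_le_mul_of_nonneg_left hca (by positivity)
        _ = ε / 2 := by field_simp; ring
    linarith

/-- lower bounds for the tails -/
lemma tgt_lower (hd : Data S D θ) (h : CosLaw S D θ) (c : ℝ) (hc0 : 0 ≤ c) (hc : c ≤ Real.pi)
    (ε : ℝ) (hε : 0 < ε) : ∃ N0 : ℕ, ∀ N, N0 ≤ N → Tl c - ε ≤ tgt S D θ c N := by
  have hpi := Real.pi_pos
  rcases hc.eq_or_lt with h0 | h0
  · refine ⟨0, fun N _ => ?_⟩
    rw [h0, Tl_pi]
    have : 0 ≤ tgt S D θ Real.pi N := div_nonneg (Nat.cast_nonneg _) (hd.Dnn N)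
    linarith
  · set b : ℝ := min Real.pi (c + ε * Real.pi / 4) with hb
    have hb0 : b ≤ Real.pi := min_le_left _ _
    have hbc : c < b := lt_min h0 (by nlinarith [mul_pos hε hpi])
    have hcb : b - c ≤ ε * Real.pi / 4 := by
      have := min_le_right Real.pi (c + ε * Real.pi / 4)
      linarith
    obtain ⟨N0, hN0⟩ := Metric.tendsto_atTop.1 (good_continuous hd h (ramp_continuous c b)) (ε / 2) (by positivity)
    refine ⟨N0, fun N hN => ?_⟩
    have h1 := hN0 N hN
    rw [Real.dist_eq] at h1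
    have h2 := (abs_lt.1 h1).1
    have h3 := Mn_ramp_le_tgt hd hbc N
    have h4 := It_ramp_ge hbc hc0 hb0
    have h5 := Tl_close hbc.le
    have h6 : 2 / Real.pi * (b - c) ≤ ε / 2 := by
      calc 2 / Real.pi * (b - c) ≤ 2 / Real.pi * (ε * Real.pi / 4) :=
            mul_le_mul_of_nonneg_left hcb (by positivity)
        _ = ε / 2 := by field_simp; ring
    linarith

/-- the law of the intervals -/
def IntLaw (S : ℕ → Finset ι) (D : ℕ → ℝ) (θ : ι → ℝ) : Prop :=
  ∀ α β : ℝ, 0 ≤ α → α ≤ β → β ≤ Real.pi →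
    Tendsto (fun N => (#{i ∈ S N | α ≤ θ i ∧ θ i ≤ β} : ℝ) / D N) atTop
      (𝓝 (2 / Real.pi * ∫ t in α..β, Real.sin t ^ 2))

lemma count_eq (α β : ℝ) (hαβ : α ≤ β) (N : ℕ) : (#{i ∈ S N | α ≤ θ i ∧ θ i ≤ β} : ℝ) / D N =
    tge S D θ α N - tgt S D θ β N := by
  unfold tge tgt
  rw [← sub_div]
  congr 1
  have h1 : #{i ∈ S N | α ≤ θ i} = #{i ∈ S N | α ≤ θ i ∧ θ i ≤ β} + #{i ∈ S N | β < θ i} := by
    classical
    rw [← card_union_of_disjoint]
    · congr 1
      ext i
      simp only [mem_filter, mem_union]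
      constructor
      · rintro ⟨h1, h2⟩
        by_cases h3 : θ i ≤ β
        · left; exact ⟨h1, h2, h3⟩
        · right; exact ⟨h1, not_le.1 h3⟩
      · rintro (⟨h1, h2, _⟩ | ⟨h1, h2⟩)
        · exact ⟨h1, h2⟩
        · exact ⟨h1, by linarith⟩
    · rw [disjoint_filter]
      rintro i _ ⟨_, h3⟩ h4
      linarith
  rw [h1]; push_cast; ring

theorem intLaw_of_cosLaw (hd : Data S D θ) (h : CosLaw S D θ) : IntLaw S D θ := by
  intro α β hα hαβ hβ
  have hlim : ∀ c : ℝ, 0 ≤ c → c ≤ Real.pi → Tendsto (tge S D θ c) atTop (𝓝 (Tl c)) ∧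
      Tendsto (tgt S D θ c) atTop (𝓝 (Tl c)) := by
    intro c hc0 hc
    have key : ∀ ε : ℝ, 0 < ε → ∃ N0 : ℕ, ∀ N, N0 ≤ N → |tge S D θ c N - Tl c| < ε ∧
        |tgt S D θ c N - Tl c| < ε := by
      intro ε hε
      obtain ⟨N1, hN1⟩ := tge_upper hd h c hc0 hc (ε / 2) (by positivity)
      obtain ⟨N2, hN2⟩ := tgt_lower hd h c hc0 hc (ε / 2) (by positivity)
      refine ⟨max N1 N2, fun N hN => ?_⟩
      have h1 := hN1 N (le_trans (le_max_left _ _) hN)
      have h2 := hN2 N (le_trans (le_max_right _ _) hN)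
      have h3 := tgt_le_tge hd c N
      constructor <;> rw [abs_lt] <;> constructor <;> linarith
    constructor
    · rw [Metric.tendsto_atTop]
      intro ε hε
      obtain ⟨N0, hN0⟩ := key ε hε
      exact ⟨N0, fun N hN => (hN0 N hN).1⟩
    · rw [Metric.tendsto_atTop]
      intro ε hε
      obtain ⟨N0, hN0⟩ := key ε hε
      exact ⟨N0, fun N hN => (hN0 N hN).2⟩
  have h1 := (hlim α hα (hαβ.trans hβ)).1.sub (hlim β (hα.trans hαβ) hβ).2
  rw [Tl_sub] at h1
  exact h1.congr fun N => (count_eq α β hαβ N).symm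

/-! ### from the signs to the cosines -/

/-- the law of the signs of `cos (k θ)` -/
def SignLaw (S : ℕ → Finset ι) (D : ℕ → ℝ) (θ : ι → ℝ) : Prop :=
  ∀ k : ℕ, 1 ≤ k → Tendsto (fun N => ((#{i ∈ S N | 0 < Real.cos (k * θ i)} : ℝ) -
    #{i ∈ S N | Real.cos (k * θ i) < 0}) / D N) atTop (𝓝 (if k = 2 then -(2 / Real.pi) else 0))

lemma Mn_sign (k : ℕ) (N : ℕ) : Mn S D θ (fun t => Real.sign (Real.cos (k * t))) N =
    ((#{i ∈ S N | 0 < Real.cos (k * θ i)} : ℝ) - #{i ∈ S N | Real.cos (k * θ i) < 0}) / D N := by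
  unfold Mn
  congr 1
  rw [← sum_boole, ← sum_boole, ← sum_sub_distrib]
  refine sum_congr rfl fun i _ => ?_
  beta_reduce
  rcases lt_trichotomy (Real.cos (k * θ i)) 0 with h | h | h
  · rw [Real.sign_of_neg h, if_neg (by linarith), if_pos h]; norm_num
  · rw [h, Real.sign_zero]; simp
  · rw [Real.sign_of_pos h, if_pos h, if_neg (by linarith)]; norm_num

theorem cosLaw_of_signLaw (hd : Data S D θ) (h : SignLaw S D θ) : CosLaw S D θ := by
  intro k hk
  have hs : ∀ n : ℕ, 1 ≤ n → Tendsto (Mn S D θ (fun t => Real.sign (Real.cos (((n * k : ℕ) : ℝ) * t)))) atTop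
      (𝓝 (if n * k = 2 then -(2 / Real.pi) else 0)) := by
    intro n hn
    have := h (n * k) (Nat.mul_pos hn hk)
    exact this.congr fun N => (Mn_sign _ N).symm
  rw [Metric.tendsto_atTop]
  intro ε hε
  obtain ⟨J, hJ⟩ := cos_approx (ε / 8) (by positivity)
  -- the limit of the approximation
  have hlim : Tendsto (fun N => ∑ n ∈ Ico 1 (max J 2), (if n < J then cf n else 0) *
      Mn S D θ (fun t => Real.sign (Real.cos (((n * k : ℕ) : ℝ) * t))) N) atTop
      (𝓝 (∑ n ∈ Ico 1 (max J 2), (if n < J then cf n else 0) * (if n * k = 2 then -(2 / Real.pi) else 0))) := by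
    refine tendsto_finsetSum _ fun n hn => ?_
    exact (hs n (mem_Ico.1 hn).1).const_mul _
  -- `J ≥ 2`
  by_cases hJ2 : J < 2
  · -- then the cosine would be small
    have h0 := hJ 0
    have : Ico 1 J = ∅ := by
      rw [Finset.Ico_eq_empty_iff]; omega
    rw [this] at h0
    simp at h0
    -- `1 ≤ ε / 8`, everything is smaller than `ε`
    obtain ⟨N2, hN2⟩ := Metric.tendsto_atTop.1 hd.one 1 one_pos
    refine ⟨N2, fun N hN => ?_⟩
    have a2 := hN2 N hN
    rw [Real.dist_eq] at a2 ⊢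
    have a3 : (#(S N) : ℝ) / D N ≤ 2 := by
      have := (abs_lt.1 a2).2
      linarith
    have a4 : |Mn S D θ (fun t => Real.cos (k * t)) N| ≤ 2 := by
      unfold Mn
      rw [abs_div, abs_of_nonneg (hd.Dnn N)]
      refine le_trans (div_le_div_of_nonneg_right ?_ (hd.Dnn N)) a3
      refine (abs_sum_le_sum_abs _ _).trans ?_
      refine (sum_le_sum fun i _ => Real.abs_cos_le_one _).trans (le_of_eq ?_)
      simp
    have a5 : |(if k = 2 then (-1 / 2 : ℝ) else 0)| ≤ 1 := by
      split_ifs <;> norm_num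
    have := abs_sub (Mn S D θ (fun t => Real.cos (k * t)) N) (if k = 2 then (-1 / 2 : ℝ) else 0)
    linarith
  · push Not at hJ2
    rw [max_eq_left hJ2] at hlim
    have hval : ∑ n ∈ Ico 1 J, (if n < J then cf n else 0) * (if n * k = 2 then -(2 / Real.pi) else 0) =
        if k = 2 then -1 / 2 else 0 := by
      have hpi := Real.pi_pos
      rw [sum_eq_single 1]
      · rw [if_pos (by omega), cf_one, one_mul]
        split_ifs
        · field_simp; norm_num
        · simp
      · intro n hn hn1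
        rw [mem_Ico] at hn
        rw [if_pos hn.2]
        by_cases h2 : n * k = 2
        · have hn2 : n = 2 := by
            have : n ∣ 2 := ⟨k, h2.symm⟩
            have := Nat.le_of_dvd (by norm_num) this
            omega
          rw [cf_even n (by omega), zero_mul]
        · rw [if_neg h2, mul_zero]
      · intro h1
        exact absurd (mem_Ico.2 ⟨le_refl 1, by omega⟩) h1
    rw [hval] at hlim
    obtain ⟨N1, hN1⟩ := Metric.tendsto_atTop.1 hlim (ε / 2) (by positivity)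
    obtain ⟨N2, hN2⟩ := Metric.tendsto_atTop.1 hd.one 1 one_pos
    refine ⟨max N1 N2, fun N hN => ?_⟩
    have a1 := hN1 N (le_trans (le_max_left _ _) hN)
    have a2 := hN2 N (le_trans (le_max_right _ _) hN)
    rw [Real.dist_eq] at a1 a2 ⊢
    have a3 : (#(S N) : ℝ) / D N ≤ 2 := by
      have := (abs_lt.1 a2).2
      linarith
    have a4 : |Mn S D θ (fun t => Real.cos (k * t)) N - ∑ n ∈ Ico 1 J, (if n < J then cf n else 0) *
        Mn S D θ (fun t => Real.sign (Real.cos (((n * k : ℕ) : ℝ) * t))) N| ≤ ε / 4 := by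
      have b1 : ∑ n ∈ Ico 1 J, (if n < J then cf n else 0) *
          Mn S D θ (fun t => Real.sign (Real.cos (((n * k : ℕ) : ℝ) * t))) N =
          (∑ i ∈ S N, ∑ n ∈ Ico 1 J, cf n * Real.sign (Real.cos (n * (k * θ i)))) / D N := by
        rw [sum_comm, sum_div]
        refine sum_congr rfl fun n hn => ?_
        rw [if_pos (mem_Ico.1 hn).2]
        unfold Mn
        rw [← mul_sum, mul_div_assoc]
        congr 3
        funext i
        push_cast
        rw [mul_assoc]
      rw [b1]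
      unfold Mn
      rw [← sub_div, ← sum_sub_distrib, abs_div, abs_of_nonneg (hd.Dnn N)]
      have c1 : |∑ i ∈ S N, (Real.cos (k * θ i) - ∑ n ∈ Ico 1 J, cf n * Real.sign (Real.cos (n * (k * θ i))))| ≤
          #(S N) * (ε / 8) := by
        refine (abs_sum_le_sum_abs _ _).trans ?_
        refine (sum_le_sum fun i _ => hJ (k * θ i)).trans (le_of_eq ?_)
        rw [sum_const, nsmul_eq_mul]
      calc |_| / D N ≤ #(S N) * (ε / 8) / D N := div_le_div_of_nonneg_right c1 (hd.Dnn N)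
        _ = #(S N) / D N * (ε / 8) := by ring
        _ ≤ 2 * (ε / 8) := mul_le_mul_of_nonneg_right a3 (by positivity)
        _ = ε / 4 := by ring
    have b3 : Mn S D θ (fun t => Real.cos (k * t)) N - (if k = 2 then -1 / 2 else 0) =
        (Mn S D θ (fun t => Real.cos (k * t)) N - ∑ n ∈ Ico 1 J, (if n < J then cf n else 0) *
        Mn S D θ (fun t => Real.sign (Real.cos (((n * k : ℕ) : ℝ) * t))) N) +
        (∑ n ∈ Ico 1 J, (if n < J then cf n else 0) *
        Mn S D θ (fun t => Real.sign (Real.cos (((n * k : ℕ) : ℝ) * t))) N - (if k = 2 then -1 / 2 else 0)) := by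
      ring
    rw [b3]
    refine lt_of_le_of_lt (abs_add_le _ _) ?_
    linarith

end

end Pool.Agent.U349.ST
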