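import Pool.Agent.U349.ST.Sign

/-!
# The Sato-Tate law and the signs of `cos (k θ)`
-/

set_option autoImplicit false

namespace Pool.Agent.U349.ST

open Finset Filter Topology

/-- angles `θ i ∈ [0, π]`, finite sets `S N` of indices and numbers `D N ≥ 0` with `#S N ∼ D N` -/
structure Data {ι : Type} (S : ℕ → Finset ι) (D : ℕ → ℝ) (θ : ι → ℝ) : Prop where
  nonneg : ∀ i, 0 ≤ θ i
  le_pi : ∀ i, θ i ≤ Real.pi
  Dnn : ∀ N, 0 ≤ D N
  one : Tendsto (fun N => (#(S N) : ℝ) / D N) atTop (𝓝 1)

section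

variable {ι : Type} {S : ℕ → Finset ι} {D : ℕ → ℝ} {θ : ι → ℝ}

/-- the mean values -/
noncomputable def Mn (S : ℕ → Finset ι) (D : ℕ → ℝ) (θ : ι → ℝ) (f : ℝ → ℝ) (N : ℕ) : ℝ :=
  (∑ i ∈ S N, f (θ i)) / D N

/-- the integral against the Sato-Tate measure -/
noncomputable def It (f : ℝ → ℝ) : ℝ := 2 / Real.pi * ∫ t in (0 : ℝ)..Real.pi, f t * Real.sin t ^ 2

def Good (S : ℕ → Finset ι) (D : ℕ → ℝ) (θ : ι → ℝ) (f : ℝ → ℝ) : Prop :=
  Tendsto (Mn S D θ f) atTop (𝓝 (It f))

lemma Mn_add (f g : ℝ → ℝ) (N : ℕ) : Mn S D θ (fun t => f t + g t) N = Mn S D θ f N + Mn S D θ g N := by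
  unfold Mn
  rw [sum_add_distrib, add_div]

lemma Mn_smul (c : ℝ) (f : ℝ → ℝ) (N : ℕ) : Mn S D θ (fun t => c * f t) N = c * Mn S D θ f N := by
  unfold Mn
  rw [← mul_sum, mul_div_assoc]

lemma ii {f : ℝ → ℝ} (hf : Continuous f) :
    IntervalIntegrable (fun t => f t * Real.sin t ^ 2) MeasureTheory.volume 0 Real.pi :=
  (hf.mul (Real.continuous_sin.pow 2)).intervalIntegrable _ _

lemma It_add {f g : ℝ → ℝ} (hf : Continuous f) (hg : Continuous g) :
    It (fun t => f t + g t) = It f + It g := by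
  unfold It
  rw [← mul_add, ← intervalIntegral.integral_add (ii hf) (ii hg)]
  congr 2
  funext t
  ring

lemma It_smul (c : ℝ) (f : ℝ → ℝ) : It (fun t => c * f t) = c * It f := by
  unfold It
  have : (fun t => c * f t * Real.sin t ^ 2) = fun t => c * (f t * Real.sin t ^ 2) := by
    funext t; ring
  rw [this, intervalIntegral.integral_const_mul]
  ring

lemma Good.add {f g : ℝ → ℝ} (hf : Continuous f) (hg : Continuous g) (h1 : Good S D θ f)
    (h2 : Good S D θ g) : Good S D θ (fun t => f t + g t) := by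
  unfold Good
  rw [It_add hf hg]
  exact (Filter.Tendsto.add h1 h2).congr fun N => (Mn_add f g N).symm

lemma Good.smul {f : ℝ → ℝ} (c : ℝ) (h1 : Good S D θ f) : Good S D θ (fun t => c * f t) := by
  unfold Good
  rw [It_smul]
  exact (Filter.Tendsto.const_mul c h1).congr fun N => (Mn_smul c f N).symm

lemma integral_sin_sq_pi : ∫ t in (0 : ℝ)..Real.pi, Real.sin t ^ 2 = Real.pi / 2 := by
  rw [integral_sin_sq]; simp

lemma It_one : It (fun _ => 1) = 1 := by
  unfold It
  simp only [one_mul]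
  rw [integral_sin_sq_pi]
  field_simp

/-- uniform limits -/
lemma Good.lim (hd : Data S D θ) {f : ℝ → ℝ} (hf : Continuous f)
    (h : ∀ ε : ℝ, 0 < ε → ∃ g : ℝ → ℝ, Continuous g ∧ Good S D θ g ∧
      ∀ t, 0 ≤ t → t ≤ Real.pi → |f t - g t| ≤ ε) : Good S D θ f := by
  unfold Good
  rw [Metric.tendsto_atTop]
  intro ε hε
  obtain ⟨g, hg, hG, hfg⟩ := h (ε / 8) (by positivity)
  obtain ⟨N1, hN1⟩ := Metric.tendsto_atTop.1 hG (ε / 4) (by positivity)
  obtain ⟨N2, hN2⟩ := Metric.tendsto_atTop.1 hd.one 1 one_pos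
  refine ⟨max N1 N2, fun N hN => ?_⟩
  have a1 := hN1 N (le_trans (le_max_left _ _) hN)
  have a2 := hN2 N (le_trans (le_max_right _ _) hN)
  rw [Real.dist_eq] at a1 a2 ⊢
  have hD := hd.Dnn N
  have a3 : (#(S N) : ℝ) / D N ≤ 2 := by
    have := (abs_lt.1 a2).2
    linarith
  have b1 : |Mn S D θ f N - Mn S D θ g N| ≤ ε / 4 := by
    unfold Mn
    rw [← sub_div, ← sum_sub_distrib, abs_div, abs_of_nonneg hD]
    have c1 : |∑ i ∈ S N, (f (θ i) - g (θ i))| ≤ #(S N) * (ε / 8) := by
      refine (abs_sum_le_sum_abs _ _).trans ?_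
      refine (sum_le_sum fun i _ => hfg (θ i) (hd.nonneg i) (hd.le_pi i)).trans (le_of_eq ?_)
      rw [sum_const, nsmul_eq_mul]
    calc |∑ i ∈ S N, (f (θ i) - g (θ i))| / D N ≤ #(S N) * (ε / 8) / D N :=
          div_le_div_of_nonneg_right c1 hD
      _ = #(S N) / D N * (ε / 8) := by ring
      _ ≤ 2 * (ε / 8) := mul_le_mul_of_nonneg_right a3 (by positivity)
      _ = ε / 4 := by ring
  have b2 : |It f - It g| ≤ ε / 8 := by
    have hpi := Real.pi_pos
    have c1 : It f - It g = 2 / Real.pi * ∫ t in (0 : ℝ)..Real.pi, (f t - g t) * Real.sin t ^ 2 := by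
      unfold It
      rw [← mul_sub, ← intervalIntegral.integral_sub (ii hf) (ii hg)]
      congr 2
      funext t
      ring
    rw [c1, abs_mul, abs_of_pos (by positivity)]
    have c2 : |∫ t in (0 : ℝ)..Real.pi, (f t - g t) * Real.sin t ^ 2| ≤
        ∫ t in (0 : ℝ)..Real.pi, ε / 8 * Real.sin t ^ 2 := by
      refine (intervalIntegral.abs_integral_le_integral_abs hpi.le).trans ?_
      refine intervalIntegral.integral_mono_on hpi.le
        (((hf.sub hg).mul (Real.continuous_sin.pow 2)).abs.intervalIntegrable _ _)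
        ((continuous_const.mul (Real.continuous_sin.pow 2)).intervalIntegrable _ _) ?_
      intro t ht
      rw [abs_mul, abs_of_nonneg (sq_nonneg (Real.sin t))]
      exact mul_le_mul_of_nonneg_right (hfg t ht.1 ht.2) (sq_nonneg _)
    rw [intervalIntegral.integral_const_mul, integral_sin_sq_pi] at c2
    calc 2 / Real.pi * |∫ t in (0 : ℝ)..Real.pi, (f t - g t) * Real.sin t ^ 2| ≤
          2 / Real.pi * (ε / 8 * (Real.pi / 2)) := mul_le_mul_of_nonneg_left c2 (by positivity)
      _ = ε / 8 := by field_simp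
  have b3 : Mn S D θ f N - It f = (Mn S D θ f N - Mn S D θ g N) + (Mn S D θ g N - It g) -
      (It f - It g) := by ring
  rw [b3]
  have d1 := abs_sub (Mn S D θ f N - Mn S D θ g N + (Mn S D θ g N - It g)) (It f - It g)
  have d2 := abs_add_le (Mn S D θ f N - Mn S D θ g N) (Mn S D θ g N - It g)
  linarith

/-! ### cosines -/

/-- the moment of `cos (k t)` -/
noncomputable def mo (k : ℤ) : ℝ := if k = 0 then 1 else if k = 2 ∨ k = -2 then -1 / 2 else 0

lemma int_cos (m : ℤ) : ∫ t in (0 : ℝ)..Real.pi, Real.cos (m * t) = if m = 0 then Real.pi else 0 := by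
  split_ifs with h
  · rw [h]; simp
  · have hm : (m : ℝ) ≠ 0 := by exact_mod_cast h
    have h1 := intervalIntegral.integral_comp_mul_left (a := 0) (b := Real.pi) Real.cos hm
    rw [h1, integral_cos, mul_zero, Real.sin_zero, Real.sin_int_mul_pi]
    simp

lemma It_cos (k : ℤ) : It (fun t => Real.cos (k * t)) = mo k := by
  unfold It
  have h1 : ∀ t : ℝ, Real.cos (k * t) * Real.sin t ^ 2 =
      1 / 2 * Real.cos (k * t) - 1 / 4 * Real.cos (((k + 2 : ℤ) : ℝ) * t) -
        1 / 4 * Real.cos (((k - 2 : ℤ) : ℝ) * t) := by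
    intro t
    have e1 : ((k + 2 : ℤ) : ℝ) * t = k * t + 2 * t := by push_cast; ring
    have e2 : ((k - 2 : ℤ) : ℝ) * t = k * t - 2 * t := by push_cast; ring
    rw [e1, e2, Real.cos_add, Real.cos_sub, Real.cos_two_mul, Real.sin_sq]
    ring
  simp only [h1]
  have c1 : ∀ (c : ℝ) (m : ℤ), IntervalIntegrable (fun t : ℝ => c * Real.cos (m * t))
      MeasureTheory.volume 0 Real.pi := by
    intro c m
    apply Continuous.intervalIntegrable
    fun_prop
  have c2 := (c1 (1 / 2) k).sub (c1 (1 / 4) (k + 2))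
  rw [intervalIntegral.integral_sub c2 (c1 _ _), intervalIntegral.integral_sub (c1 _ _) (c1 _ _),
    intervalIntegral.integral_const_mul, intervalIntegral.integral_const_mul,
    intervalIntegral.integral_const_mul, int_cos, int_cos, int_cos]
  unfold mo
  have hpi := Real.pi_pos
  by_cases h0 : k = 0
  · subst h0; simp; field_simp
  · by_cases h2 : k = 2
    · subst h2; simp; field_simp; norm_num
    · by_cases h3 : k = -2
      · subst h3; simp; field_simp; norm_num
      · have h4 : k + 2 ≠ 0 := by omega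
        have h5 : k - 2 ≠ 0 := by omega
        simp [h0, h2, h3, h4, h5]

/-- the mean values of the cosines -/
def CosLaw (S : ℕ → Finset ι) (D : ℕ → ℝ) (θ : ι → ℝ) : Prop :=
  ∀ k : ℕ, 1 ≤ k → Tendsto (Mn S D θ (fun t => Real.cos (k * t))) atTop
    (𝓝 (if k = 2 then -1 / 2 else 0))

lemma good_cos (hd : Data S D θ) (h : CosLaw S D θ) (k : ℤ) : Good S D θ (fun t => Real.cos (k * t)) := by
  unfold Good
  rw [It_cos]
  unfold mo
  by_cases h0 : k = 0
  · subst h0
    rw [if_pos rfl]
    refine hd.one.congr fun N => ?_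
    unfold Mn
    simp
  · rw [if_neg h0]
    have h1 := h k.natAbs (by omega)
    have h2 : ((if k.natAbs = 2 then (-1 / 2 : ℝ) else 0)) = if k = 2 ∨ k = -2 then -1 / 2 else 0 := by
      congr 1
      apply propext
      omega
    rw [h2] at h1
    refine h1.congr fun N => ?_
    unfold Mn
    congr 1
    refine sum_congr rfl fun i _ => ?_
    have h3 : ((k.natAbs : ℕ) : ℝ) = |(k : ℝ)| := by
      rw [← Int.cast_abs, ← Int.natCast_natAbs]; simp
    rw [h3]
    rcases abs_choice (k : ℝ) with h4 | h4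
    · rw [h4]
    · rw [h4]
      beta_reduce
      rw [neg_mul, Real.cos_neg]

lemma good_pow (hd : Data S D θ) (h : CosLaw S D θ) (j : ℕ) : ∀ k : ℤ,
    Good S D θ (fun t => Real.cos t ^ j * Real.cos (k * t)) := by
  induction j with
  | zero => intro k; simpa using good_cos hd h k
  | succ j ih =>
    intro k
    have h1 : (fun t => Real.cos t ^ (j + 1) * Real.cos (k * t)) = fun t =>
        1 / 2 * (Real.cos t ^ j * Real.cos (((k + 1 : ℤ) : ℝ) * t)) +
        1 / 2 * (Real.cos t ^ j * Real.cos (((k - 1 : ℤ) : ℝ) * t)) := by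
      funext t
      have e1 : ((k + 1 : ℤ) : ℝ) * t = k * t + t := by push_cast; ring
      have e2 : ((k - 1 : ℤ) : ℝ) * t = k * t - t := by push_cast; ring
      rw [e1, e2, Real.cos_add, Real.cos_sub, pow_succ]
      ring
    rw [h1]
    refine Good.add (by fun_prop) (by fun_prop) ((ih (k + 1)).smul _) ((ih (k - 1)).smul _)

open Polynomial in
lemma good_poly (hd : Data S D θ) (h : CosLaw S D θ) (p : ℝ[X]) :
    Good S D θ (fun t => p.eval (Real.cos t)) := by
  induction p using Polynomial.induction_on' with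
  | add p q hp hq =>
    simp only [eval_add]
    exact Good.add (p.continuous.comp Real.continuous_cos) (q.continuous.comp Real.continuous_cos) hp hq
  | monomial n a =>
    simp only [eval_monomial]
    have := (good_pow hd h n 0).smul a
    simpa using this

lemma good_continuous (hd : Data S D θ) (h : CosLaw S D θ) {f : ℝ → ℝ} (hf : Continuous f) :
    Good S D θ f := by
  refine Good.lim hd hf fun ε hε => ?_
  obtain ⟨p, hp⟩ := exists_polynomial_near_of_continuousOn (-1) 1 (fun x => f (Real.arccos x))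
    (hf.comp Real.continuous_arccos).continuousOn ε hε
  refine ⟨fun t => p.eval (Real.cos t), p.continuous.comp Real.continuous_cos, good_poly hd h p, ?_⟩
  intro t ht0 ht1
  have h1 := hp (Real.cos t) ⟨Real.neg_one_le_cos t, Real.cos_le_one t⟩
  rw [Real.arccos_cos ht0 ht1] at h1
  rw [abs_sub_comm]
  exact h1.le

/-! ### ramps -/

/-- `0` up to `a`, `1` from `b` on -/
noncomputable def ramp (a b t : ℝ) : ℝ := max 0 (min 1 ((t - a) / (b - a)))

lemma ramp_continuous (a b : ℝ) : Continuous (ramp a b) := by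
  unfold ramp; fun_prop

lemma ramp_nonneg (a b t : ℝ) : 0 ≤ ramp a b t := le_max_left _ _

lemma ramp_le_one (a b t : ℝ) : ramp a b t ≤ 1 := max_le zero_le_one (min_le_left _ _)

lemma ramp_eq_zero {a b t : ℝ} (hab : a < b) (ht : t ≤ a) : ramp a b t = 0 := by
  unfold ramp
  apply max_eq_left
  refine (min_le_right _ _).trans ?_
  exact div_nonpos_of_nonpos_of_nonneg (by linarith) (by linarith)

lemma ramp_eq_one {a b t : ℝ} (hab : a < b) (ht : b ≤ t) : ramp a b t = 1 := by
  unfold ramp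
  rw [min_eq_left, max_eq_right zero_le_one]
  rw [le_div_iff₀ (by linarith)]
  linarith

/-- the tail of the Sato-Tate measure -/
noncomputable def Tl (c : ℝ) : ℝ := 2 / Real.pi * ∫ t in c..Real.pi, Real.sin t ^ 2

lemma sin_sq_int (a b : ℝ) : IntervalIntegrable (fun t => Real.sin t ^ 2) MeasureTheory.volume a b :=
  (Real.continuous_sin.pow 2).intervalIntegrable _ _

lemma Tl_sub {a b : ℝ} : Tl a - Tl b = 2 / Real.pi * ∫ t in a..b, Real.sin t ^ 2 := by
  unfold Tl
  rw [← intervalIntegral.integral_add_adjacent_intervals (sin_sq_int a b) (sin_sq_int b Real.pi)]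
  ring

end

end Pool.Agent.U349.ST
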