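import Pool.Agent.U349.ST.Fwd

/-!
# The multilinear extension principle
-/

set_option autoImplicit false

namespace Pool.Agent.U349.ST

open Finset Filter Topology MeasureTheory

/-- angles `θ i j ∈ [0, π]`, finite sets `S N` of indices and numbers `D N ≥ 0` with `#S N ∼ D N` -/
structure DataS {ι : Type} {s : ℕ} (S : ℕ → Finset ι) (D : ℕ → ℝ) (θ : ι → Fin s → ℝ) : Prop where
  nonneg : ∀ i j, 0 ≤ θ i j
  le_pi : ∀ i j, θ i j ≤ Real.pi
  Dnn : ∀ N, 0 ≤ D N
  one : Tendsto (fun N => (#(S N) : ℝ) / D N) atTop (𝓝 1)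

/-- bounded and measurable -/
def Adm (f : ℝ → ℝ) : Prop := Measurable f ∧ ∃ B : ℝ, ∀ t, |f t| ≤ B

lemma Adm.add {f g : ℝ → ℝ} (hf : Adm f) (hg : Adm g) : Adm (f + g) := by
  obtain ⟨m1, B1, h1⟩ := hf
  obtain ⟨m2, B2, h2⟩ := hg
  exact ⟨m1.add m2, B1 + B2, fun t => (abs_add_le _ _).trans (add_le_add (h1 t) (h2 t))⟩

lemma Adm.smul {f : ℝ → ℝ} (c : ℝ) (hf : Adm f) : Adm (c • f) := by
  obtain ⟨m1, B1, h1⟩ := hf
  refine ⟨m1.const_smul c, |c| * B1, fun t => ?_⟩
  rw [Pi.smul_apply, smul_eq_mul, abs_mul]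
  exact mul_le_mul_of_nonneg_left (h1 t) (abs_nonneg c)

lemma Adm.zero : Adm 0 := ⟨measurable_const, 0, fun t => by simp⟩

lemma Adm.cont {f : ℝ → ℝ} (hf : Continuous f) {B : ℝ} (hB : ∀ t, |f t| ≤ B) : Adm f :=
  ⟨hf.measurable, B, hB⟩

section

variable {ι : Type} {s : ℕ} (S : ℕ → Finset ι) (D : ℕ → ℝ) (θ : ι → Fin s → ℝ)
  (μ : Measure (Fin s → ℝ))

/-- the mean values of products -/
noncomputable def MnS (f : Fin s → ℝ → ℝ) (N : ℕ) : ℝ := (∑ i ∈ S N, ∏ j, f j (θ i j)) / D N

/-- the integrals of products -/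
noncomputable def Lam (f : Fin s → ℝ → ℝ) : ℝ := ∫ x, ∏ j, f j (x j) ∂μ

def GoodS (f : Fin s → ℝ → ℝ) : Prop := Tendsto (MnS S D θ f) atTop (𝓝 (Lam μ f))

variable {S D θ μ}

lemma prod_upd (f : Fin s → ℝ → ℝ) (a : Fin s) (g : ℝ → ℝ) (x : Fin s → ℝ) :
    ∏ j, (Function.update f a g) j (x j) = g (x a) * ∏ j ∈ univ.erase a, f j (x j) := by
  rw [← mul_prod_erase univ _ (mem_univ a), Function.update_self]
  congr 1
  refine prod_congr rfl fun j hj => ?_
  rw [Function.update_of_ne (ne_of_mem_erase hj)]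

lemma prod_self (f : Fin s → ℝ → ℝ) (a : Fin s) (x : Fin s → ℝ) :
    ∏ j, f j (x j) = f a (x a) * ∏ j ∈ univ.erase a, f j (x j) := by
  rw [← mul_prod_erase univ _ (mem_univ a)]

lemma meas_prod (f : Fin s → ℝ → ℝ) (T : Finset (Fin s)) (hf : ∀ j ∈ T, Measurable (f j)) :
    Measurable fun x : Fin s → ℝ => ∏ j ∈ T, f j (x j) :=
  Finset.measurable_fun_prod _ fun j hj => (hf j hj).comp (measurable_pi_apply j)

lemma bdd_prod (f : Fin s → ℝ → ℝ) (T : Finset (Fin s)) (hf : ∀ j ∈ T, ∃ B : ℝ, ∀ t, |f j t| ≤ B) :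
    ∃ B : ℝ, 0 < B ∧ ∀ x : Fin s → ℝ, |∏ j ∈ T, f j (x j)| ≤ B := by
  classical
  induction T using Finset.induction_on with
  | empty => exact ⟨1, one_pos, fun x => by simp⟩
  | insert a T ha ih =>
    obtain ⟨B, hB, h⟩ := ih fun j hj => hf j (mem_insert_of_mem hj)
    obtain ⟨B', h'⟩ := hf a (mem_insert_self a T)
    refine ⟨(|B'| + 1) * B, by positivity, fun x => ?_⟩
    rw [prod_insert ha, abs_mul]
    refine mul_le_mul ?_ (h x) (abs_nonneg _) (by positivity)
    have := le_abs_self B'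
    linarith [h' (x a)]

lemma Adm.prod {f : Fin s → ℝ → ℝ} (hf : ∀ j, Adm (f j)) [IsProbabilityMeasure μ] :
    Integrable (fun x : Fin s → ℝ => ∏ j, f j (x j)) μ := by
  obtain ⟨B, _, hB⟩ := bdd_prod f univ fun j _ => (hf j).2
  refine Integrable.of_bound (meas_prod f univ fun j _ => (hf j).1).aestronglyMeasurable B ?_
  exact Filter.Eventually.of_forall fun x => by rw [Real.norm_eq_abs]; exact hB x

lemma upd_adm {f : Fin s → ℝ → ℝ} {a : Fin s} {g : ℝ → ℝ} (hf : ∀ j, Adm (f j)) (hg : Adm g) :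
    ∀ j, Adm (Function.update f a g j) := by
  intro j
  by_cases h : j = a
  · rw [h, Function.update_self]; exact hg
  · rw [Function.update_of_ne h]; exact hf j

lemma good_add [IsProbabilityMeasure μ] {f : Fin s → ℝ → ℝ} {a : Fin s} {g h : ℝ → ℝ}
    (hf : ∀ j, Adm (f j)) (hg : Adm g) (hh : Adm h) (h1 : GoodS S D θ μ (Function.update f a g))
    (h2 : GoodS S D θ μ (Function.update f a h)) : GoodS S D θ μ (Function.update f a (g + h)) := by
  unfold GoodS at *
  have e1 : Lam μ (Function.update f a (g + h)) = Lam μ (Function.update f a g) +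
      Lam μ (Function.update f a h) := by
    unfold Lam
    rw [← integral_add (Adm.prod (upd_adm hf hg)) (Adm.prod (upd_adm hf hh))]
    congr 1
    funext x
    rw [prod_upd, prod_upd, prod_upd, Pi.add_apply, add_mul]
  rw [e1]
  refine (Filter.Tendsto.add h1 h2).congr fun N => ?_
  unfold MnS
  rw [← add_div, ← sum_add_distrib]
  congr 1
  refine sum_congr rfl fun i _ => ?_
  rw [prod_upd, prod_upd, prod_upd, Pi.add_apply, add_mul]

lemma good_smul {f : Fin s → ℝ → ℝ} {a : Fin s} {g : ℝ → ℝ} (c : ℝ)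
    (h1 : GoodS S D θ μ (Function.update f a g)) : GoodS S D θ μ (Function.update f a (c • g)) := by
  unfold GoodS at *
  have e1 : Lam μ (Function.update f a (c • g)) = c * Lam μ (Function.update f a g) := by
    unfold Lam
    rw [← integral_const_mul]
    congr 1
    funext x
    rw [prod_upd, prod_upd, Pi.smul_apply, smul_eq_mul, mul_assoc]
  rw [e1]
  refine (Filter.Tendsto.const_mul c h1).congr fun N => ?_
  unfold MnS
  rw [← mul_div_assoc, mul_sum]
  congr 1
  refine sum_congr rfl fun i _ => ?_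
  rw [prod_upd, prod_upd, Pi.smul_apply, smul_eq_mul, mul_assoc]

lemma good_zero {f : Fin s → ℝ → ℝ} {a : Fin s} : GoodS S D θ μ (Function.update f a 0) := by
  unfold GoodS
  have e1 : Lam μ (Function.update f a 0) = 0 := by
    unfold Lam
    have : (fun x : Fin s → ℝ => ∏ j, Function.update f a 0 j (x j)) = fun _ => 0 := by
      funext x
      rw [prod_upd, Pi.zero_apply, zero_mul]
    rw [this]; simp
  rw [e1]
  refine tendsto_const_nhds.congr fun N => ?_
  unfold MnS
  have : ∑ i ∈ S N, ∏ j, Function.update f a 0 j (θ i j) = 0 := by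
    refine sum_eq_zero fun i _ => ?_
    rw [prod_upd, Pi.zero_apply, zero_mul]
  rw [this, zero_div]

/-- uniform limits in one variable -/
lemma good_lim [IsProbabilityMeasure μ] (hd : DataS S D θ) (hμ : ∀ᵐ x ∂μ, ∀ j, 0 ≤ x j ∧ x j ≤ Real.pi)
    {f : Fin s → ℝ → ℝ} {a : Fin s} (hf : ∀ j, Adm (f j))
    (h : ∀ ε : ℝ, 0 < ε → ∃ g : ℝ → ℝ, Adm g ∧ GoodS S D θ μ (Function.update f a g) ∧
      ∀ t, 0 ≤ t → t ≤ Real.pi → |f a t - g t| ≤ ε) : GoodS S D θ μ f := by
  obtain ⟨B, hB0, hB⟩ := bdd_prod f (univ.erase a) fun j _ => (hf j).2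
  unfold GoodS
  rw [Metric.tendsto_atTop]
  intro ε hε
  obtain ⟨g, hg, hG, hfg⟩ := h (ε / (8 * B)) (by positivity)
  obtain ⟨N1, hN1⟩ := Metric.tendsto_atTop.1 hG (ε / 4) (by positivity)
  obtain ⟨N2, hN2⟩ := Metric.tendsto_atTop.1 hd.one 1 one_pos
  refine ⟨max N1 N2, fun N hN => ?_⟩
  have a1 := hN1 N (le_trans (le_max_left _ _) hN)
  have a2 := hN2 N (le_trans (le_max_right _ _) hN)
  rw [Real.dist_eq] at a1 a2 ⊢
  have hD := hd.Dnn N
  have a3 : (#(S N) : ℝ) / D N ≤ 2 := by
    have := (abs_lt.1 a2).2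
    linarith
  have key : ∀ x : Fin s → ℝ, (∀ j, 0 ≤ x j ∧ x j ≤ Real.pi) →
      |∏ j, f j (x j) - ∏ j, Function.update f a g j (x j)| ≤ ε / 8 := by
    intro x hx
    rw [prod_self f a, prod_upd, ← sub_mul, abs_mul]
    calc |f a (x a) - g (x a)| * |∏ j ∈ univ.erase a, f j (x j)| ≤ ε / (8 * B) * B :=
          mul_le_mul (hfg _ (hx a).1 (hx a).2) (hB x) (abs_nonneg _) (by positivity)
      _ = ε / 8 := by field_simp
  have b1 : |MnS S D θ f N - MnS S D θ (Function.update f a g) N| ≤ ε / 4 := by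
    unfold MnS
    rw [← sub_div, ← sum_sub_distrib, abs_div, abs_of_nonneg hD]
    have c1 : |∑ i ∈ S N, (∏ j, f j (θ i j) - ∏ j, Function.update f a g j (θ i j))| ≤ #(S N) * (ε / 8) := by
      refine (abs_sum_le_sum_abs _ _).trans ?_
      refine (sum_le_sum fun i _ => key (θ i) fun j => ⟨hd.nonneg i j, hd.le_pi i j⟩).trans (le_of_eq ?_)
      rw [sum_const, nsmul_eq_mul]
    calc |∑ i ∈ S N, (∏ j, f j (θ i j) - ∏ j, Function.update f a g j (θ i j))| / D N ≤
          #(S N) * (ε / 8) / D N := div_le_div_of_nonneg_right c1 hD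
      _ = #(S N) / D N * (ε / 8) := by ring
      _ ≤ 2 * (ε / 8) := mul_le_mul_of_nonneg_right a3 (by positivity)
      _ = ε / 4 := by ring
  have b2 : |Lam μ f - Lam μ (Function.update f a g)| ≤ ε / 8 := by
    unfold Lam
    rw [← integral_sub (Adm.prod hf) (Adm.prod (upd_adm hf hg))]
    have := norm_integral_le_of_norm_le_const (μ := μ) (f := fun x : Fin s → ℝ =>
      ∏ j, f j (x j) - ∏ j, Function.update f a g j (x j)) (C := ε / 8) (by
        filter_upwards [hμ] with x hx
        rw [Real.norm_eq_abs]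
        exact key x hx)
    rw [Real.norm_eq_abs] at this
    simpa using this
  have b3 : MnS S D θ f N - Lam μ f = (MnS S D θ f N - MnS S D θ (Function.update f a g) N) +
      (MnS S D θ (Function.update f a g) N - Lam μ (Function.update f a g)) -
      (Lam μ f - Lam μ (Function.update f a g)) := by ring
  rw [b3]
  have d1 := abs_sub (MnS S D θ f N - MnS S D θ (Function.update f a g) N +
    (MnS S D θ (Function.update f a g) N - Lam μ (Function.update f a g)))
    (Lam μ f - Lam μ (Function.update f a g))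
  have d2 := abs_add_le (MnS S D θ f N - MnS S D θ (Function.update f a g) N)
    (MnS S D θ (Function.update f a g) N - Lam μ (Function.update f a g))
  linarith

/-- **multilinear extension** -/
theorem extend [IsProbabilityMeasure μ] (hd : DataS S D θ)
    (hμ : ∀ᵐ x ∂μ, ∀ j, 0 ≤ x j ∧ x j ≤ Real.pi) (A C : Set (ℝ → ℝ)) (hA : ∀ f ∈ A, Adm f)
    (hC : ∀ f ∈ C, Adm f)
    (happ : ∀ f ∈ C, ∀ ε : ℝ, 0 < ε → ∃ g ∈ Submodule.span ℝ A, ∀ t, 0 ≤ t → t ≤ Real.pi → |f t - g t| ≤ ε)
    (hgood : ∀ f : Fin s → ℝ → ℝ, (∀ j, f j ∈ A) → GoodS S D θ μ f) :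
    ∀ f : Fin s → ℝ → ℝ, (∀ j, f j ∈ C) → GoodS S D θ μ f := by
  classical
  have key : ∀ T : Finset (Fin s), ∀ f : Fin s → ℝ → ℝ, (∀ j ∈ T, f j ∈ C) → (∀ j, j ∉ T → f j ∈ A) →
      GoodS S D θ μ f := by
    intro T
    induction T using Finset.induction_on with
    | empty => exact fun f _ h => hgood f fun j => h j (notMem_empty j)
    | insert a T ha ih =>
      intro f h1 h2
      have hf : ∀ j, Adm (f j) := by
        intro j
        by_cases hj : j ∈ insert a T
        · exact hC _ (h1 j hj)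
        · exact hA _ (h2 j hj)
      have hspan : ∀ g ∈ Submodule.span ℝ A, Adm g ∧ GoodS S D θ μ (Function.update f a g) := by
        intro g hg
        induction hg using Submodule.span_induction with
        | mem g hg =>
          refine ⟨hA g hg, ih _ ?_ ?_⟩
          · intro j hj
            have hja : j ≠ a := fun h => ha (h ▸ hj)
            rw [Function.update_of_ne hja]
            exact h1 j (mem_insert_of_mem hj)
          · intro j hj
            by_cases hja : j = a
            · rw [hja, Function.update_self]; exact hg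
            · rw [Function.update_of_ne hja]
              refine h2 j fun h => ?_
              rcases mem_insert.1 h with h | h
              · exact hja h
              · exact hj h
        | zero => exact ⟨Adm.zero, good_zero⟩
        | add g h _ _ h3 h4 => exact ⟨h3.1.add h4.1, good_add hf h3.1 h4.1 h3.2 h4.2⟩
        | smul c g _ h3 => exact ⟨h3.1.smul c, good_smul c h3.2⟩
      refine good_lim hd hμ (a := a) hf fun ε hε => ?_
      obtain ⟨g, hg, hfg⟩ := happ (f a) (h1 a (mem_insert_self a T)) ε hε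
      exact ⟨g, (hspan g hg).1, (hspan g hg).2, hfg⟩
  exact fun f hf => key univ f (fun j _ => hf j) fun j hj => absurd (mem_univ j) hj

end

end Pool.Agent.U349.ST
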