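import Pool.Agent.U349.ST.Classes

/-!
# The product of Sato-Tate measures
-/

set_option autoImplicit false

namespace Pool.Agent.U349.ST

open Finset Filter Topology MeasureTheory

/-- the expected value of the sign of `cos (k θ)` -/
noncomputable def bs (k : ℕ) : ℝ := if k = 0 then 1 else if k = 2 then -(2 / Real.pi) else 0

lemma bias_sum (k : ℕ) (hk : 1 ≤ k) :
    ∑ j ∈ range (k + 1), (-1 : ℝ) ^ j * (2 / Real.pi * ∫ t in zz k j..zz k (j + 1), Real.sin t ^ 2) =
      if k = 2 then -(2 / Real.pi) else 0 := by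
  have hkR : (0 : ℝ) < k := by exact_mod_cast hk
  have hpi := Real.pi_pos
  set H : ℕ → ℝ := fun j => (zz k j - Real.sin (zz k j) * Real.cos (zz k j)) / Real.pi with hH
  have e1 : ∀ j ∈ range (k + 1), (-1 : ℝ) ^ j * (2 / Real.pi * ∫ t in zz k j..zz k (j + 1), Real.sin t ^ 2) =
      (-1) ^ j * (H (j + 1) - H j) := by
    intro j _
    rw [integral_sin_sq]
    simp only [hH]
    congr 1
    field_simp
    ring
  rw [sum_congr rfl e1, abel]
  have e2 : H (k + 1) = 1 := by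
    simp only [hH]
    rw [zz_last k hk, Real.sin_pi]; field_simp; ring
  have e3 : H 0 = 0 := by
    simp only [hH]
    rw [zz_zero k hk, Real.sin_zero]; simp
  have e4 : ∑ j ∈ range k, (-1 : ℝ) ^ j * H (j + 1) =
      (1 / (2 * k)) * ∑ j ∈ range k, (-1 : ℝ) ^ j * (2 * j + 1) -
      (1 / (2 * Real.pi)) * ∑ j ∈ range k, (-1 : ℝ) ^ j * Real.sin ((2 * j + 1) * Real.pi / k) := by
    rw [mul_sum, mul_sum, ← sum_sub_distrib]
    refine sum_congr rfl fun j hj => ?_
    simp only [hH]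
    rw [zz_mid k hk j (mem_range.1 hj)]
    have e5 : (2 * (j : ℝ) + 1) * Real.pi / k = 2 * ((2 * j + 1) * Real.pi / (2 * k)) := by
      field_simp
    rw [e5, Real.sin_two_mul]
    field_simp
  rw [e2, e3, e4, alt_odd, alt_sin k hk]
  split_ifs with hk2
  · rw [hk2]; field_simp; norm_num; ring
  · field_simp; ring

/-- the Sato-Tate measure on `[0, π]` -/
noncomputable def nu : Measure ℝ :=
  (volume.restrict (Set.Icc 0 Real.pi)).withDensity (fun t => ENNReal.ofReal (2 / Real.pi * Real.sin t ^ 2))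

lemma nu_integral (f : ℝ → ℝ) : ∫ t, f t ∂nu = 2 / Real.pi * ∫ t in (0 : ℝ)..Real.pi, f t * Real.sin t ^ 2 := by
  have hpi := Real.pi_pos
  unfold nu
  rw [integral_withDensity_eq_integral_toReal_smul (by fun_prop)
    (Filter.Eventually.of_forall fun t => ENNReal.ofReal_lt_top),
    integral_Icc_eq_integral_Ioc, ← intervalIntegral.integral_of_le hpi.le,
    ← intervalIntegral.integral_const_mul]
  congr 1
  funext t
  rw [ENNReal.toReal_ofReal (by positivity), smul_eq_mul]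
  ring

instance : IsProbabilityMeasure nu := by
  have hpi := Real.pi_pos
  constructor
  unfold nu
  rw [withDensity_apply _ MeasurableSet.univ, Measure.restrict_univ,
    ← ofReal_integral_eq_lintegral_ofReal]
  · rw [integral_Icc_eq_integral_Ioc, ← intervalIntegral.integral_of_le hpi.le,
      intervalIntegral.integral_const_mul, integral_sin_sq_pi]
    have : 2 / Real.pi * (Real.pi / 2) = 1 := by field_simp
    rw [this]; simp
  · exact (Continuous.integrableOn_Icc (by fun_prop))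
  · exact Filter.Eventually.of_forall fun t => by positivity

lemma nu_ac : nu ≪ volume := (withDensity_absolutelyContinuous _ _).trans Measure.restrict_le_self.absolutelyContinuous

lemma nu_singleton (c : ℝ) : nu {c} = 0 := nu_ac (by simp)

lemma nu_mem : ∀ᵐ t ∂nu, 0 ≤ t ∧ t ≤ Real.pi := by
  have h : ∀ᵐ t ∂(volume.restrict (Set.Icc 0 Real.pi)), 0 ≤ t ∧ t ≤ Real.pi :=
    ae_restrict_mem measurableSet_Icc
  exact (withDensity_absolutelyContinuous _ _).ae_le h

lemma nu_ind (α β : ℝ) (h0 : 0 ≤ α) (h1 : α ≤ β) (h2 : β ≤ Real.pi) :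
    ∫ t, (if α ≤ t ∧ t ≤ β then (1 : ℝ) else 0) ∂nu = 2 / Real.pi * ∫ t in α..β, Real.sin t ^ 2 := by
  rw [nu_integral]
  congr 1
  have hpi := Real.pi_pos
  rw [intervalIntegral.integral_of_le hpi.le, intervalIntegral.integral_of_le h1,
    ← integral_Icc_eq_integral_Ioc, ← integral_Icc_eq_integral_Ioc]
  have e1 : (fun t => (if α ≤ t ∧ t ≤ β then (1 : ℝ) else 0) * Real.sin t ^ 2) =
      (Set.Icc α β).indicator (fun t => Real.sin t ^ 2) := by
    funext t
    rw [Set.indicator_apply]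
    by_cases h : α ≤ t ∧ t ≤ β
    · rw [if_pos h, if_pos (Set.mem_Icc.2 h), one_mul]
    · rw [if_neg h, if_neg (fun h' => h (Set.mem_Icc.1 h')), zero_mul]
  rw [e1, setIntegral_indicator measurableSet_Icc]
  congr 2
  ext t
  simp only [Set.mem_inter_iff, Set.mem_Icc]
  constructor
  · rintro ⟨_, h⟩; exact h
  · rintro h; exact ⟨⟨h0.trans h.1, h.2.trans h2⟩, h⟩

lemma nu_sign (k : ℕ) : ∫ t, Real.sign (Real.cos (k * t)) ∂nu = bs k := by
  unfold bs
  split_ifs with h0 h2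
  · subst h0
    simp [Real.sign_one]
  · have hk : 1 ≤ k := by omega
    have e1 : ∫ t, Real.sign (Real.cos (k * t)) ∂nu = ∫ t, ∑ j ∈ range (k + 1), (-1 : ℝ) ^ j *
        (if zz k j ≤ t ∧ t ≤ zz k (j + 1) then (1 : ℝ) else 0) ∂nu := by
      refine integral_congr_ae ?_
      filter_upwards [nu_mem] with t ht
      exact sign_eq k hk t ht.1 ht.2
    have hint : ∀ j ∈ range (k + 1), Integrable (fun t => (-1 : ℝ) ^ j *
        (if zz k j ≤ t ∧ t ≤ zz k (j + 1) then (1 : ℝ) else 0)) nu := by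
      intro j _
      refine Integrable.const_mul ?_ _
      obtain ⟨m, B, hB⟩ := adm_ind (zz k j) (zz k (j + 1))
      exact Integrable.of_bound m.aestronglyMeasurable B (Filter.Eventually.of_forall fun t => by
        rw [Real.norm_eq_abs]; exact hB t)
    rw [e1, integral_finsetSum _ hint]
    have e2 : ∀ j ∈ range (k + 1), ∫ t, (-1 : ℝ) ^ j * (if zz k j ≤ t ∧ t ≤ zz k (j + 1) then (1 : ℝ) else 0) ∂nu =
        (-1 : ℝ) ^ j * (2 / Real.pi * ∫ t in zz k j..zz k (j + 1), Real.sin t ^ 2) := by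
      intro j _
      rw [integral_const_mul, nu_ind _ _ (zz_bounds k j).1 (zz_mono k hk j) (zz_bounds k (j + 1)).2]
    rw [sum_congr rfl e2, bias_sum k hk, if_pos h2]
  · have hk : 1 ≤ k := by omega
    have e1 : ∫ t, Real.sign (Real.cos (k * t)) ∂nu = ∫ t, ∑ j ∈ range (k + 1), (-1 : ℝ) ^ j *
        (if zz k j ≤ t ∧ t ≤ zz k (j + 1) then (1 : ℝ) else 0) ∂nu := by
      refine integral_congr_ae ?_
      filter_upwards [nu_mem] with t ht
      exact sign_eq k hk t ht.1 ht.2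
    have hint : ∀ j ∈ range (k + 1), Integrable (fun t => (-1 : ℝ) ^ j *
        (if zz k j ≤ t ∧ t ≤ zz k (j + 1) then (1 : ℝ) else 0)) nu := by
      intro j _
      refine Integrable.const_mul ?_ _
      obtain ⟨m, B, hB⟩ := adm_ind (zz k j) (zz k (j + 1))
      exact Integrable.of_bound m.aestronglyMeasurable B (Filter.Eventually.of_forall fun t => by
        rw [Real.norm_eq_abs]; exact hB t)
    rw [e1, integral_finsetSum _ hint]
    have e2 : ∀ j ∈ range (k + 1), ∫ t, (-1 : ℝ) ^ j * (if zz k j ≤ t ∧ t ≤ zz k (j + 1) then (1 : ℝ) else 0) ∂nu =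
        (-1 : ℝ) ^ j * (2 / Real.pi * ∫ t in zz k j..zz k (j + 1), Real.sin t ^ 2) := by
      intro j _
      rw [integral_const_mul, nu_ind _ _ (zz_bounds k j).1 (zz_mono k hk j) (zz_bounds k (j + 1)).2]
    rw [sum_congr rfl e2, bias_sum k hk, if_neg h2]

/-- the product measure -/
noncomputable def nuS (s : ℕ) : Measure (Fin s → ℝ) := Measure.pi fun _ => nu

instance (s : ℕ) : IsProbabilityMeasure (nuS s) := by unfold nuS; infer_instance

lemma nuS_mem (s : ℕ) : ∀ᵐ x ∂(nuS s), ∀ j, 0 ≤ x j ∧ x j ≤ Real.pi := by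
  rw [ae_all_iff]
  intro j
  exact (Measure.tendsto_eval_ae_ae (μ := fun _ : Fin s => nu) (i := j)).eventually nu_mem

lemma nuS_na (s : ℕ) (j : Fin s) (c : ℝ) : nuS s {x | x j = c} = 0 := by
  have : {x : Fin s → ℝ | x j = c} = (Function.eval j : (Fin s → ℝ) → ℝ) ⁻¹' ({c} : Set ℝ) := by
    ext x; simp
  rw [this]
  exact Measure.pi_eval_preimage_null _ (nu_singleton c)

lemma nuS_box (s : ℕ) (α β : Fin s → ℝ) (h : ∀ j, 0 ≤ α j ∧ α j ≤ β j ∧ β j ≤ Real.pi) :
    (nuS s).real {x | ∀ j, α j ≤ x j ∧ x j ≤ β j} = ∏ j, (2 / Real.pi * ∫ t in α j..β j, Real.sin t ^ 2) := by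
  have h2 : (fun x : Fin s → ℝ => ∏ j, if α j ≤ x j ∧ x j ≤ β j then (1 : ℝ) else 0) =
      Set.indicator {x | ∀ j, α j ≤ x j ∧ x j ≤ β j} (fun _ => 1) := by
    funext x
    rw [prod_ind, Set.indicator_apply]
    rfl
  have h3 : MeasurableSet {x : Fin s → ℝ | ∀ j, α j ≤ x j ∧ x j ≤ β j} := by
    have : {x : Fin s → ℝ | ∀ j, α j ≤ x j ∧ x j ≤ β j} = Set.pi Set.univ fun j => Set.Icc (α j) (β j) := by
      ext x
      rw [Set.mem_univ_pi]
      rfl
    rw [this]
    exact MeasurableSet.univ_pi fun j => measurableSet_Icc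
  have h4 : (nuS s).real {x | ∀ j, α j ≤ x j ∧ x j ≤ β j} =
      ∫ x, (∏ j, if α j ≤ x j ∧ x j ≤ β j then (1 : ℝ) else 0) ∂(nuS s) := by
    rw [h2, integral_indicator_const _ h3]; simp
  rw [h4]
  unfold nuS
  rw [integral_fintype_prod_eq_prod (𝕜 := ℝ) (fun (j : Fin s) (t : ℝ) => if α j ≤ t ∧ t ≤ β j then (1 : ℝ) else 0)]
  exact prod_congr rfl fun j _ => nu_ind _ _ (h j).1 (h j).2.1 (h j).2.2

lemma nuS_sign (s : ℕ) (k : Fin s → ℕ) : ∫ x, ∏ j, Real.sign (Real.cos (k j * x j)) ∂(nuS s) = ∏ j, bs (k j) := by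
  unfold nuS
  rw [integral_fintype_prod_eq_prod (𝕜 := ℝ) (fun (j : Fin s) (t : ℝ) => Real.sign (Real.cos (k j * t)))]
  exact prod_congr rfl fun j _ => nu_sign (k j)

section

variable {ι : Type} {s : ℕ} {S : ℕ → Finset ι} {D : ℕ → ℝ} {θ : ι → Fin s → ℝ}

/-- **the product Sato-Tate law is the law of the signs** -/
theorem prodLaw_iff (hd : DataS S D θ) :
    (∀ α β : Fin s → ℝ, (∀ j, 0 ≤ α j ∧ α j ≤ β j ∧ β j ≤ Real.pi) →
      Tendsto (fun N => (#{i ∈ S N | ∀ j, α j ≤ θ i j ∧ θ i j ≤ β j} : ℝ) / D N) atTop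
        (𝓝 (∏ j, (2 / Real.pi * ∫ t in α j..β j, Real.sin t ^ 2)))) ↔
    ∀ k : Fin s → ℕ, Tendsto (fun N => (∑ i ∈ S N, ∏ j, Real.sign (Real.cos (k j * θ i j))) / D N) atTop
      (𝓝 (∏ j, bs (k j))) := by
  have h := boxLaw_iff (μ := nuS s) hd (nuS_mem s) (nuS_na s)
  unfold BoxLaw SgnLaw at h
  simp only [nuS_sign] at h
  rw [← h]
  refine forall₂_congr fun α β => forall_congr' fun hαβ => ?_
  rw [nuS_box s α β hαβ]

end

end Pool.Agent.U349.ST
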