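import Pool.Agent.U349.OB.OneBit

/-!
# The cosine as a uniform limit of signs of cosines
-/

set_option autoImplicit false

namespace Pool.Agent.U349.ST

open Finset Filter Topology
open Pool.Agent.U349.OB
open Pool.Agent.H469R2.NK (e norm_e e_add e_zero conj_e)
open Pool.Agent.H373R2.T7 (muR muR_abs)

/-- the indicator of `[1/4, 3/4)` modulo one -/
noncomputable def ind (t : ℝ) : ℝ := if 1 / 4 ≤ Int.fract t ∧ Int.fract t < 3 / 4 then 1 else 0

lemma cos_fract (t : ℝ) : Real.cos (2 * Real.pi * t) = Real.cos (2 * Real.pi * Int.fract t) := by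
  have h : 2 * Real.pi * t = 2 * Real.pi * Int.fract t + ⌊t⌋ * (2 * Real.pi) := by
    have := Int.fract_add_floor t
    calc 2 * Real.pi * t = 2 * Real.pi * (Int.fract t + ⌊t⌋) := by rw [this]
      _ = _ := by ring
  rw [h, Real.cos_add_int_mul_two_pi]

lemma ind_add (t : ℝ) : ind t + ind (-t) = 1 - Real.sign (Real.cos (2 * Real.pi * t)) := by
  rw [cos_fract]
  have hpi := Real.pi_pos
  set f : ℝ := Int.fract t with hf
  have hf0 : 0 ≤ f := Int.fract_nonneg t
  have hf1 : f < 1 := Int.fract_lt_one t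
  rcases hf0.eq_or_lt with h0 | h0
  · have h1 : Int.fract (-t) = 0 := by
      rw [Int.fract_neg_eq_zero, ← hf]; exact h0.symm
    unfold ind
    rw [← hf, h1, ← h0]
    norm_num [Real.sign_one]
  · have h1 : Int.fract (-t) = 1 - f := by
      rw [Int.fract_neg (by rw [← hf]; exact h0.ne')]
    unfold ind
    rw [← hf, h1]
    rcases lt_trichotomy f (1 / 4) with h | h | h
    · rw [if_neg (by rintro ⟨h2, _⟩; linarith), if_neg (by rintro ⟨_, h2⟩; linarith),
        Real.sign_of_pos (Real.cos_pos_of_mem_Ioo ⟨by nlinarith, by nlinarith⟩)]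
      norm_num
    · rw [if_pos ⟨by linarith, by linarith⟩, if_neg (by rintro ⟨_, h2⟩; linarith)]
      have h2 : 2 * Real.pi * f = Real.pi / 2 := by rw [h]; ring
      rw [h2, Real.cos_pi_div_two, Real.sign_zero]
      norm_num
    · rcases lt_trichotomy f (3 / 4) with h' | h' | h'
      · rw [if_pos ⟨by linarith, by linarith⟩, if_pos ⟨by linarith, by linarith⟩,
          Real.sign_of_neg (Real.cos_neg_of_pi_div_two_lt_of_lt (by nlinarith) (by nlinarith))]
        norm_num
      · rw [if_neg (by rintro ⟨_, h2⟩; linarith), if_pos ⟨by linarith, by linarith⟩]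
        have h2 : 2 * Real.pi * f = Real.pi + Real.pi / 2 := by rw [h']; ring
        rw [h2, Real.cos_add_pi_div_two, Real.sin_pi, neg_zero, Real.sign_zero]
        norm_num
      · have h2 : 2 * Real.pi * f = -(2 * Real.pi * (1 - f)) + 1 * (2 * Real.pi) := by ring
        rw [if_neg (by rintro ⟨_, h2⟩; linarith), if_neg (by rintro ⟨h2, _⟩; linarith), h2]
        have h3 : Real.cos (-(2 * Real.pi * (1 - f)) + 1 * (2 * Real.pi)) = Real.cos (2 * Real.pi * (1 - f)) := by
          rw [one_mul, Real.cos_add_two_pi, Real.cos_neg]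
        rw [h3, Real.sign_of_pos (Real.cos_pos_of_mem_Ioo ⟨by nlinarith, by nlinarith⟩)]
        norm_num

/-- the real character modulo 4 -/
noncomputable def ch (n : ℕ) : ℝ := if n % 4 = 1 then 1 else if n % 4 = 3 then -1 else 0

lemma chi4_eq (n : ℕ) : chi4 n = ((ch n : ℝ) : ℂ) := by
  unfold chi4 ch
  split_ifs <;> simp

/-- the coefficients -/
noncomputable def cf (n : ℕ) : ℝ := Real.pi / 4 * (muR n * ch n / n)

lemma cf_even (n : ℕ) (h : n % 2 = 0) : cf n = 0 := by
  unfold cf ch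
  have h1 : n % 4 ≠ 1 := by omega
  have h3 : n % 4 ≠ 3 := by omega
  rw [if_neg h1, if_neg h3]; simp

lemma cf_one : cf 1 = Real.pi / 4 := by
  unfold cf ch
  have : muR 1 = 1 := by simp [muR]
  rw [this]; norm_num

/-- **the cosine is a uniform limit of signs of cosines** -/
theorem cos_approx (ε : ℝ) (hε : 0 < ε) : ∃ J : ℕ, ∀ y : ℝ,
    |Real.cos y - ∑ n ∈ Ico 1 J, cf n * Real.sign (Real.cos (n * y))| ≤ ε := by
  obtain ⟨J0, hJ⟩ := approx 4 chi4 v1 (-1) good4.hc good4.per good4.bd good4.mul good4.one good4.hs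
    good4.add good4.add' (ε / Real.pi) (by positivity)
  have hJ := hJ J0 le_rfl
  refine ⟨2 ^ J0, ?_⟩
  have key : ∀ t : ℝ, |Real.cos (2 * Real.pi * t) / Real.pi -
      ∑ n ∈ Ico 1 (2 ^ J0), (muR n * ch n / n) * ((1 / 2 - ind (n * t)) / 2)| ≤ ε / Real.pi := by
    intro t
    have h1 := hJ t
    rw [TT_eq] at h1
    have h2 : ∑ n ∈ Ico 1 (2 ^ J0), ((muR n : ℝ) : ℂ) * chi4 n / n * St 4 v1 (n * t) -
        Complex.I / (2 * Real.pi) * (e t - (-1) * e (-t)) =
        -Complex.I * ((Real.cos (2 * Real.pi * t) / Real.pi -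
      ∑ n ∈ Ico 1 (2 ^ J0), (muR n * ch n / n) * ((1 / 2 - ind (n * t)) / 2) : ℝ) : ℂ) := by
      have h3 : ∀ n ∈ Ico 1 (2 ^ J0), ((muR n : ℝ) : ℂ) * chi4 n / n * St 4 v1 (n * t) =
          Complex.I * (((muR n * ch n / n) * ((1 / 2 - ind (n * t)) / 2) : ℝ) : ℂ) := by
        intro n _
        rw [St4, chi4_eq]
        unfold ind
        push_cast
        ring
      rw [sum_congr rfl h3, ← mul_sum, ← Complex.ofReal_sum]
      have h4 : e t - (-1) * e (-t) = ((2 * Real.cos (2 * Real.pi * t) : ℝ) : ℂ) := by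
        have := cos_eq t
        push_cast at this ⊢
        rw [this]; ring
      rw [h4]
      generalize ∑ n ∈ Ico 1 (2 ^ J0), (muR n * ch n / n) * ((1 / 2 - ind (n * t)) / 2) = W
      push_cast
      have hpi : (Real.pi : ℂ) ≠ 0 := by exact_mod_cast Real.pi_ne_zero
      field_simp
      ring
    rw [h2, norm_mul, norm_neg, Complex.norm_I, one_mul, Complex.norm_real, Real.norm_eq_abs] at h1
    exact h1
  intro y
  set t : ℝ := y / (2 * Real.pi) with ht
  have hy : y = 2 * Real.pi * t := by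
    rw [ht]; field_simp
  have k1 := key t
  have k2 := key (-t)
  have h1 : ∑ n ∈ Ico 1 (2 ^ J0), (muR n * ch n / n) * ((1 / 2 - ind (n * t)) / 2) +
      ∑ n ∈ Ico 1 (2 ^ J0), (muR n * ch n / n) * ((1 / 2 - ind (n * -t)) / 2) =
      ∑ n ∈ Ico 1 (2 ^ J0), (muR n * ch n / n) * (Real.sign (Real.cos (n * y)) / 2) := by
    rw [← sum_add_distrib]
    refine sum_congr rfl fun n _ => ?_
    have h2 := ind_add (n * t)
    have h3 : 2 * Real.pi * (n * t) = n * y := by rw [hy]; ring
    rw [h3] at h2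
    have h4 : (n : ℝ) * -t = -(n * t) := by ring
    rw [h4]
    linear_combination (-(muR n * ch n / n) / 2) * h2
  have h5 : Real.cos (2 * Real.pi * -t) = Real.cos (2 * Real.pi * t) := by
    rw [mul_neg, Real.cos_neg]
  rw [h5] at k2
  have h6 : Real.cos y - ∑ n ∈ Ico 1 (2 ^ J0), cf n * Real.sign (Real.cos (n * y)) =
      Real.pi / 2 * ((Real.cos (2 * Real.pi * t) / Real.pi -
      ∑ n ∈ Ico 1 (2 ^ J0), (muR n * ch n / n) * ((1 / 2 - ind (n * t)) / 2)) +
      (Real.cos (2 * Real.pi * t) / Real.pi -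
      ∑ n ∈ Ico 1 (2 ^ J0), (muR n * ch n / n) * ((1 / 2 - ind (n * -t)) / 2))) := by
    have h7 : (Real.cos (2 * Real.pi * t) / Real.pi -
      ∑ n ∈ Ico 1 (2 ^ J0), (muR n * ch n / n) * ((1 / 2 - ind (n * t)) / 2)) +
      (Real.cos (2 * Real.pi * t) / Real.pi -
      ∑ n ∈ Ico 1 (2 ^ J0), (muR n * ch n / n) * ((1 / 2 - ind (n * -t)) / 2)) =
      2 * (Real.cos (2 * Real.pi * t) / Real.pi) -
        ∑ n ∈ Ico 1 (2 ^ J0), (muR n * ch n / n) * (Real.sign (Real.cos (n * y)) / 2) := by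
      rw [← h1]; ring
    rw [h7, mul_sub, mul_sum, ← hy]
    congr 1
    · field_simp
    · refine sum_congr rfl fun n _ => ?_
      unfold cf; ring
  rw [h6, abs_mul, abs_of_pos (by positivity : 0 < Real.pi / 2)]
  have h7 := abs_add_le (Real.cos (2 * Real.pi * t) / Real.pi -
      ∑ n ∈ Ico 1 (2 ^ J0), (muR n * ch n / n) * ((1 / 2 - ind (n * t)) / 2))
      (Real.cos (2 * Real.pi * t) / Real.pi -
      ∑ n ∈ Ico 1 (2 ^ J0), (muR n * ch n / n) * ((1 / 2 - ind (n * -t)) / 2))
  calc Real.pi / 2 * |_| ≤ Real.pi / 2 * (ε / Real.pi + ε / Real.pi) :=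
        mul_le_mul_of_nonneg_left (h7.trans (add_le_add k1 k2)) (by positivity)
    _ = ε := by field_simp; ring

end Pool.Agent.U349.ST
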