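import Pool.Agent.U349.ST.Prod

/-!
# Traces over the extensions and consecutive primes
-/

set_option autoImplicit false

namespace Pool.Agent.U349.ST

open Finset Filter Topology

/-- `α ^ m + β ^ m`, where `α`, `β` are the roots of `X ^ 2 - a X + p` -/
def tr (a p : ℤ) : ℕ → ℤ
  | 0 => 2
  | 1 => a
  | n + 2 => a * tr a p (n + 1) - p * tr a p n

lemma tr_eq (a : ℤ) (p : ℕ) (hp : 0 < p) (ha : a ^ 2 ≤ 4 * p) (m : ℕ) :
    (tr a p m : ℝ) = 2 * Real.sqrt p ^ m * Real.cos (m * Real.arccos (a / (2 * Real.sqrt p))) := by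
  have hpR : (0 : ℝ) < p := by exact_mod_cast hp
  have hsq : (0 : ℝ) < Real.sqrt p := Real.sqrt_pos.2 hpR
  have hss : Real.sqrt p * Real.sqrt p = p := Real.mul_self_sqrt hpR.le
  set θ : ℝ := Real.arccos (a / (2 * Real.sqrt p)) with hθ
  have haR : (a : ℝ) ^ 2 ≤ 4 * p := by exact_mod_cast ha
  have habs : |(a : ℝ)| ≤ 2 * Real.sqrt p := by
    apply abs_le_of_sq_le_sq _ (by positivity)
    calc (a : ℝ) ^ 2 ≤ 4 * p := haR
      _ = (2 * Real.sqrt p) ^ 2 := by rw [mul_pow, sq (Real.sqrt _), hss]; ring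
  have hcos : Real.cos θ = a / (2 * Real.sqrt p) := by
    rw [hθ, Real.cos_arccos]
    · rw [le_div_iff₀ (by positivity)]
      linarith [(abs_le.1 habs).1]
    · rw [div_le_one (by positivity)]
      exact (abs_le.1 habs).2
  have key : ∀ m : ℕ, (tr a p m : ℝ) = 2 * Real.sqrt p ^ m * Real.cos (m * θ) ∧
      (tr a p (m + 1) : ℝ) = 2 * Real.sqrt p ^ (m + 1) * Real.cos (((m + 1 : ℕ) : ℝ) * θ) := by
    intro m
    induction m with
    | zero =>
      constructor
      · simp [tr]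
      · simp only [tr, zero_add, pow_one, Nat.cast_one, one_mul]
        rw [hcos]; field_simp
    | succ m ih =>
      refine ⟨ih.2, ?_⟩
      have h1 : (tr a p (m + 1 + 1) : ℝ) = a * tr a p (m + 1) - p * tr a p m := by
        simp only [tr]; push_cast; ring
      rw [h1, ih.1, ih.2]
      have h2 : Real.cos (((m + 1 + 1 : ℕ) : ℝ) * θ) = 2 * Real.cos θ * Real.cos (((m + 1 : ℕ) : ℝ) * θ) -
          Real.cos (m * θ) := by
        have e1 : ((m + 1 + 1 : ℕ) : ℝ) * θ = ((m + 1 : ℕ) : ℝ) * θ + θ := by push_cast; ring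
        have e2 : (m : ℝ) * θ = ((m + 1 : ℕ) : ℝ) * θ - θ := by push_cast; ring
        rw [e1, e2, Real.cos_add, Real.cos_sub]; ring
      have h3 : (a : ℝ) = 2 * Real.sqrt p * Real.cos θ := by rw [hcos]; field_simp
      have h4 : (p : ℝ) = Real.sqrt p * Real.sqrt p := hss.symm
      rw [h2]
      calc (a : ℝ) * (2 * Real.sqrt p ^ (m + 1) * Real.cos (((m + 1 : ℕ) : ℝ) * θ)) -
            p * (2 * Real.sqrt p ^ m * Real.cos (m * θ)) =
            (2 * Real.sqrt p * Real.cos θ) * (2 * Real.sqrt p ^ (m + 1) * Real.cos (((m + 1 : ℕ) : ℝ) * θ)) -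
            (Real.sqrt p * Real.sqrt p) * (2 * Real.sqrt p ^ m * Real.cos (m * θ)) := by rw [← h3, hss]
        _ = _ := by ring
  exact (key m).1

lemma sign_pos_mul (c x : ℝ) (hc : 0 < c) : Real.sign (c * x) = Real.sign x := by
  rcases lt_trichotomy x 0 with h | h | h
  · rw [Real.sign_of_neg h, Real.sign_of_neg (mul_neg_of_pos_of_neg hc h)]
  · rw [h, mul_zero]
  · rw [Real.sign_of_pos h, Real.sign_of_pos (mul_pos hc h)]

lemma sign_tr (a : ℤ) (p : ℕ) (hp : 0 < p) (ha : a ^ 2 ≤ 4 * p) (m : ℕ) :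
    (((tr a p m).sign : ℤ) : ℝ) = Real.sign (Real.cos (m * Real.arccos (a / (2 * Real.sqrt p)))) := by
  have hpR : (0 : ℝ) < p := by exact_mod_cast hp
  have hsq : (0 : ℝ) < Real.sqrt p := Real.sqrt_pos.2 hpR
  rw [← Real.sign_intCast, tr_eq a p hp ha m, sign_pos_mul _ _ (by positivity)]

/-- the angle in `[0, 1]` -/
noncomputable def angP (a : ℤ) (p : ℕ) : ℝ := Real.arccos (a / (2 * Real.sqrt p)) / Real.pi

/-- the general theorem for shifted sequences of traces -/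
theorem consecutive {s : ℕ} (a : Fin s → ℕ → ℤ) (h : Fin s → ℕ)
    (ha : ∀ j k, a j k ^ 2 ≤ 4 * (Nat.nth Nat.Prime k : ℤ)) :
    (∀ α β : Fin s → ℝ, (∀ j, 0 ≤ α j ∧ α j ≤ β j ∧ β j ≤ 1) →
      Tendsto (fun K : ℕ => (#{k ∈ range K | ∀ j, α j ≤ angP (a j (k + h j)) (Nat.nth Nat.Prime (k + h j)) ∧
        angP (a j (k + h j)) (Nat.nth Nat.Prime (k + h j)) ≤ β j} : ℝ) / K) atTop
        (𝓝 (∏ j, ∫ t in α j..β j, 2 * Real.sin (Real.pi * t) ^ 2))) ↔
    ∀ m : Fin s → ℕ, Tendsto (fun K : ℕ => (∑ k ∈ range K, ∏ j,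
      (((tr (a j (k + h j)) (Nat.nth Nat.Prime (k + h j)) (m j)).sign : ℤ) : ℝ)) / K) atTop
      (𝓝 (∏ j, bs (m j))) := by
  have hpi := Real.pi_pos
  have hp : ∀ k, 0 < Nat.nth Nat.Prime k := fun k => (Nat.prime_nth_prime k).pos
  set θ : ℕ → Fin s → ℝ := fun k j => Real.arccos (a j (k + h j) / (2 * Real.sqrt (Nat.nth Nat.Prime (k + h j)))) with hθ
  have hd : DataS (fun K => range K) (fun K => (K : ℝ)) θ := by
    refine ⟨fun _ _ => Real.arccos_nonneg _, fun _ _ => Real.arccos_le_pi _, fun _ => Nat.cast_nonneg _, ?_⟩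
    have : (fun _ : ℕ => (1 : ℝ)) =ᶠ[atTop] fun K : ℕ => (#(range K) : ℝ) / K := by
      filter_upwards [eventually_gt_atTop 0] with K hK
      rw [card_range, div_self]
      exact_mod_cast hK.ne'
    exact tendsto_const_nhds.congr' this
  have hmain := prodLaw_iff hd
  have e1 : ∀ k j m, (((tr (a j (k + h j)) (Nat.nth Nat.Prime (k + h j)) m).sign : ℤ) : ℝ) =
      Real.sign (Real.cos (m * θ k j)) := by
    intro k j m
    exact sign_tr _ _ (hp _) (ha _ _) m
  simp only [e1]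
  rw [← hmain]
  have e2 : ∀ k j, angP (a j (k + h j)) (Nat.nth Nat.Prime (k + h j)) = θ k j / Real.pi := fun _ _ => rfl
  simp only [e2]
  have e3 : ∀ α β : ℝ, ∫ t in α..β, 2 * Real.sin (Real.pi * t) ^ 2 =
      2 / Real.pi * ∫ t in (Real.pi * α)..(Real.pi * β), Real.sin t ^ 2 := by
    intro α β
    rw [intervalIntegral.integral_const_mul,
      intervalIntegral.integral_comp_mul_left (fun t => Real.sin t ^ 2) hpi.ne', smul_eq_mul]
    ring
  have e4 : ∀ (α β : Fin s → ℝ) (K : ℕ), #{k ∈ range K | ∀ j, α j ≤ θ k j / Real.pi ∧ θ k j / Real.pi ≤ β j} =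
      #{k ∈ range K | ∀ j, Real.pi * α j ≤ θ k j ∧ θ k j ≤ Real.pi * β j} := by
    intro α β K
    congr 1
    refine filter_congr fun k _ => forall_congr' fun j => ?_
    rw [le_div_iff₀ hpi, div_le_iff₀ hpi, mul_comm (α j), mul_comm (β j)]
  simp only [e3, e4]
  constructor
  · intro H α β hαβ
    have := H (fun j => α j / Real.pi) (fun j => β j / Real.pi) fun j => by
      obtain ⟨h1, h2, h3⟩ := hαβ j
      exact ⟨div_nonneg h1 hpi.le, div_le_div_of_nonneg_right h2 hpi.le, by rw [div_le_one hpi]; exact h3⟩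
    have e5 : ∀ c : ℝ, Real.pi * (c / Real.pi) = c := fun c => by field_simp
    simp only [e5] at this
    exact this
  · intro H α β hαβ
    refine H (fun j => Real.pi * α j) (fun j => Real.pi * β j) fun j => ?_
    obtain ⟨h1, h2, h3⟩ := hαβ j
    exact ⟨mul_nonneg hpi.le h1, mul_le_mul_of_nonneg_left h2 hpi.le, by nlinarith⟩

end Pool.Agent.U349.ST
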